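import Mathlib
import Pool.Agent.H373R2.T7.BilF

/-! Mean squares of additive convolutions. -/

set_option autoImplicit false

namespace Pool.Agent.R311.DEH
open Finset
open Pool.Agent.H807R2.Dav
open Pool.Agent.H373R2.T7

/-- additive convolution of two sequences supported on `[1, X]` -/
noncomputable def cv (X : ℕ) (a b : ℕ → ℂ) (N : ℕ) : ℂ :=
  ∑ p ∈ (Icc 1 X ×ˢ Icc 1 X).filter (fun p => p.1 + p.2 = N), a p.1 * b p.2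

lemma cv_fourier (X M : ℕ) (a b : ℕ → ℂ) (t : ℝ) :
    ∑ N ∈ Icc 1 (2 * X), cv X a b N * ee (t * ((((1 : ℤ) * N : ℤ) : ℝ) / M)) =
      (∑ m ∈ Icc 1 X, a m * ee (t * ((((1 : ℤ) * m : ℤ) : ℝ) / M))) *
        (∑ n ∈ Icc 1 X, b n * ee (t * ((((1 : ℤ) * n : ℤ) : ℝ) / M))) := by
  have h1 : ∀ N ∈ Icc 1 (2 * X), cv X a b N * ee (t * ((((1 : ℤ) * N : ℤ) : ℝ) / M)) =
      ∑ p ∈ (Icc 1 X ×ˢ Icc 1 X).filter (fun p => p.1 + p.2 = N),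
        (a p.1 * ee (t * ((((1 : ℤ) * p.1 : ℤ) : ℝ) / M))) *
        (b p.2 * ee (t * ((((1 : ℤ) * p.2 : ℤ) : ℝ) / M))) := by
    intro N _
    unfold cv
    rw [sum_mul]
    apply sum_congr rfl
    intro p hp
    rw [mem_filter] at hp
    have h2 : ee (t * ((((1 : ℤ) * N : ℤ) : ℝ) / M)) =
        ee (t * ((((1 : ℤ) * p.1 : ℤ) : ℝ) / M)) * ee (t * ((((1 : ℤ) * p.2 : ℤ) : ℝ) / M)) := by
      rw [← ee_add, ← hp.2]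
      congr 1
      push_cast
      ring
    rw [h2]
    ring
  rw [sum_congr rfl h1, sum_mul_sum, ← sum_product']
  rw [← sum_fiberwise_of_maps_to (s := Icc 1 X ×ˢ Icc 1 X) (t := Icc 1 (2 * X))
    (g := fun p => p.1 + p.2)]
  intro p hp
  rw [mem_product, mem_Icc, mem_Icc] at hp
  rw [mem_Icc]
  omega

theorem cv_mean_sq (X : ℕ) (a b : ℕ → ℂ) (δ : ℝ)
    (h : ∀ α : ℝ, ‖∑ m ∈ Icc 1 X, a m * ee ((m : ℝ) * α)‖ ≤ δ) :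
    ∑ N ∈ Icc 1 (2 * X), ‖cv X a b N‖ ^ 2 ≤ δ ^ 2 * ∑ n ∈ Icc 1 X, ‖b n‖ ^ 2 := by
  have hM1 : 1 ≤ 2 * X + 1 := by omega
  have hM0 : (0 : ℝ) < ((2 * X + 1 : ℕ) : ℝ) := by positivity
  have h1 := parseval_Icc (2 * X) (2 * X + 1) hM1 (by omega) (cv X a b) 1 (Or.inl rfl)
  have h2 := parseval_Icc X (2 * X + 1) hM1 (by omega) b 1 (Or.inl rfl)
  have h3 : ∑ t ∈ range (2 * X + 1), ‖∑ N ∈ Icc 1 (2 * X), cv X a b N *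
      ee ((t : ℝ) * ((((1 : ℤ) * N : ℤ) : ℝ) / (2 * X + 1 : ℕ)))‖ ^ 2 ≤
      ∑ t ∈ range (2 * X + 1), δ ^ 2 * ‖∑ n ∈ Icc 1 X, b n *
        ee ((t : ℝ) * ((((1 : ℤ) * n : ℤ) : ℝ) / (2 * X + 1 : ℕ)))‖ ^ 2 := by
    apply sum_le_sum
    intro t _
    rw [cv_fourier, norm_mul, mul_pow]
    apply mul_le_mul_of_nonneg_right _ (by positivity)
    apply pow_le_pow_left₀ (norm_nonneg _)
    have h4 := h ((t : ℝ) / (2 * X + 1 : ℕ))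
    refine le_trans (le_of_eq ?_) h4
    congr 1
    apply sum_congr rfl
    intro m _
    congr 2
    push_cast
    ring
  rw [← mul_sum, h1, h2] at h3
  have h5 : ((2 * X + 1 : ℕ) : ℝ) * ∑ N ∈ Icc 1 (2 * X), ‖cv X a b N‖ ^ 2 ≤
      ((2 * X + 1 : ℕ) : ℝ) * (δ ^ 2 * ∑ n ∈ Icc 1 X, ‖b n‖ ^ 2) := by
    refine h3.trans (le_of_eq ?_)
    ring
  exact le_of_mul_le_mul_left h5 hM0

lemma cv_eq (X : ℕ) (a b : ℕ → ℂ) {N : ℕ} (hN : N ≤ X) :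
    cv X a b N = ∑ n ∈ Ico 1 N, b n * a (N - n) := by
  unfold cv
  symm
  apply sum_bij' (fun n _ => (N - n, n)) (fun p _ => p.2)
  · intro n hn
    rw [mem_Ico] at hn
    rw [mem_filter, mem_product, mem_Icc, mem_Icc]
    refine ⟨⟨⟨?_, ?_⟩, ?_, ?_⟩, ?_⟩ <;> simp only <;> omega
  · intro p hp
    rw [mem_filter, mem_product, mem_Icc, mem_Icc] at hp
    rw [mem_Ico]
    omega
  · intro n _; rfl
  · intro p hp
    rw [mem_filter, mem_product, mem_Icc, mem_Icc] at hp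
    ext
    · simp only; omega
    · rfl
  · intro n _
    ring

/-- the mean square over `N ≤ X` of `∑_{n < N} b(n) a(N - n)` -/
theorem mean_sq (X : ℕ) (a b : ℕ → ℂ) (δ : ℝ)
    (h : ∀ α : ℝ, ‖∑ m ∈ Icc 1 X, a m * ee ((m : ℝ) * α)‖ ≤ δ) :
    ∑ N ∈ Icc 1 X, ‖∑ n ∈ Ico 1 N, b n * a (N - n)‖ ^ 2 ≤ δ ^ 2 * ∑ n ∈ Icc 1 X, ‖b n‖ ^ 2 := by
  refine le_trans ?_ (cv_mean_sq X a b δ h)
  refine le_trans (le_of_eq ?_) (sum_le_sum_of_subset_of_nonneg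
    (Icc_subset_Icc le_rfl (show X ≤ 2 * X by omega)) (fun _ _ _ => by positivity))
  apply sum_congr rfl
  intro N hN
  rw [mem_Icc] at hN
  rw [cv_eq X a b hN.2]

/-- the mean of the absolute value, by Cauchy's inequality -/
theorem mean_abs (X : ℕ) (a b : ℕ → ℂ) (δ : ℝ) (hδ : 0 ≤ δ)
    (h : ∀ α : ℝ, ‖∑ m ∈ Icc 1 X, a m * ee ((m : ℝ) * α)‖ ≤ δ) :
    ∑ N ∈ Icc 1 X, ‖∑ n ∈ Ico 1 N, b n * a (N - n)‖ ≤
      δ * Real.sqrt (X * ∑ n ∈ Icc 1 X, ‖b n‖ ^ 2) := by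
  have h1 := mean_sq X a b δ h
  have h2 : (∑ N ∈ Icc 1 X, ‖∑ n ∈ Ico 1 N, b n * a (N - n)‖) ^ 2 ≤
      X * ∑ N ∈ Icc 1 X, ‖∑ n ∈ Ico 1 N, b n * a (N - n)‖ ^ 2 := by
    have := sq_sum_le_card_mul_sum_sq (s := Icc 1 X)
      (f := fun N => ‖∑ n ∈ Ico 1 N, b n * a (N - n)‖)
    rw [Nat.card_Icc, Nat.add_sub_cancel] at this
    exact this
  have h3 : (∑ N ∈ Icc 1 X, ‖∑ n ∈ Ico 1 N, b n * a (N - n)‖) ^ 2 ≤
      (δ * Real.sqrt (X * ∑ n ∈ Icc 1 X, ‖b n‖ ^ 2)) ^ 2 := by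
    rw [mul_pow, Real.sq_sqrt (by positivity)]
    refine h2.trans ?_
    calc (X : ℝ) * ∑ N ∈ Icc 1 X, ‖∑ n ∈ Ico 1 N, b n * a (N - n)‖ ^ 2 ≤
        X * (δ ^ 2 * ∑ n ∈ Icc 1 X, ‖b n‖ ^ 2) := mul_le_mul_of_nonneg_left h1 (by positivity)
      _ = _ := by ring
  exact le_of_sq_le_sq h3 (by positivity)

end Pool.Agent.R311.DEH
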