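import Mathlib

/-! The Moebius function on the integers coprime to `q` as a convolution. -/

set_option autoImplicit false

namespace Pool.Agent.R311.DEH
open Finset ArithmeticFunction

/-- the indicator of the integers all of whose prime factors divide `q` -/
noncomputable def rq (q : ℕ) : ArithmeticFunction ℤ :=
  ⟨fun n => if n ≠ 0 ∧ n.primeFactors ⊆ q.primeFactors then 1 else 0, by simp⟩

/-- the Moebius function restricted to the integers coprime to `q` -/
noncomputable def mq (q : ℕ) : ArithmeticFunction ℤ :=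
  ⟨fun n => if n.Coprime q then moebius n else 0, by simp⟩

lemma rq_apply (q n : ℕ) : rq q n = if n ≠ 0 ∧ n.primeFactors ⊆ q.primeFactors then 1 else 0 := rfl

lemma mq_apply (q n : ℕ) : mq q n = if n.Coprime q then moebius n else 0 := rfl

lemma rq_mult (q : ℕ) : (rq q).IsMultiplicative := by
  refine ⟨by rw [rq_apply]; simp, ?_⟩
  intro m n hmn
  rw [rq_apply, rq_apply, rq_apply]
  rcases Nat.eq_zero_or_pos m with h | h
  · subst h; simp
  rcases Nat.eq_zero_or_pos n with h' | h'
  · subst h'; simp
  have e : (m * n).primeFactors = m.primeFactors ∪ n.primeFactors :=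
    Nat.primeFactors_mul (by omega) (by omega)
  have e2 : (m * n).primeFactors ⊆ q.primeFactors ↔
      m.primeFactors ⊆ q.primeFactors ∧ n.primeFactors ⊆ q.primeFactors := by
    rw [e, union_subset_iff]
  have h2 : m ≠ 0 := by omega
  have h3 : n ≠ 0 := by omega
  have h1 : m * n ≠ 0 := Nat.mul_ne_zero h2 h3
  by_cases a : m.primeFactors ⊆ q.primeFactors
  · by_cases b : n.primeFactors ⊆ q.primeFactors
    · rw [if_pos ⟨h1, e2.2 ⟨a, b⟩⟩, if_pos ⟨h2, a⟩, if_pos ⟨h3, b⟩, one_mul]
    · rw [if_neg (fun h => b (e2.1 h.2).2), if_pos ⟨h2, a⟩, if_neg (fun h => b h.2), mul_zero]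
  · rw [if_neg (fun h => a (e2.1 h.2).1), if_neg (fun h => a h.2), zero_mul]

lemma mq_mult (q : ℕ) : (mq q).IsMultiplicative := by
  refine ⟨by rw [mq_apply]; simp, ?_⟩
  intro m n hmn
  rw [mq_apply, mq_apply, mq_apply]
  have e2 : (m * n).Coprime q ↔ m.Coprime q ∧ n.Coprime q := Nat.coprime_mul_iff_left
  by_cases a : m.Coprime q
  · by_cases b : n.Coprime q
    · rw [if_pos (e2.2 ⟨a, b⟩), if_pos a, if_pos b, isMultiplicative_moebius.map_mul_of_coprime hmn]
    · rw [if_neg (fun h => b (e2.1 h).2), if_pos a, if_neg b, mul_zero]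
  · rw [if_neg (fun h => a (e2.1 h).1), if_neg a, zero_mul]

lemma mq_eq (q : ℕ) (hq : q ≠ 0) : mq q = moebius * rq q := by
  rw [(mq_mult q).eq_iff_eq_on_prime_powers _ _ (isMultiplicative_moebius.mul (rq_mult q))]
  intro p i hp
  rw [mul_apply]
  rcases Nat.eq_zero_or_pos i with h | h
  · subst h
    simp [mq_apply, rq_apply]
  have hsum : ∑ x ∈ (p ^ i).divisorsAntidiagonal, moebius x.1 * rq q x.2 =
      rq q (p ^ i) - rq q (p ^ (i - 1)) := by
    have hne : ((1 : ℕ), p ^ i) ≠ (p, p ^ (i - 1)) := by
      intro h1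
      have := (Prod.mk.inj h1).1
      exact hp.one_lt.ne this
    rw [← sum_subset (s₁ := {((1 : ℕ), p ^ i), (p, p ^ (i - 1))})]
    · rw [sum_pair hne]
      simp only [moebius_apply_one, one_mul, moebius_apply_prime hp]
      ring
    · intro x hx
      rw [mem_insert, mem_singleton] at hx
      rw [Nat.mem_divisorsAntidiagonal]
      have h0 : p ^ i ≠ 0 := pow_ne_zero _ hp.ne_zero
      rcases hx with h1 | h1
      · rw [h1]; exact ⟨one_mul _, h0⟩
      · rw [h1]
        refine ⟨?_, h0⟩
        simp only
        rw [← pow_succ', Nat.sub_add_cancel h]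
    · intro x hx hx'
      rw [Nat.mem_divisorsAntidiagonal] at hx
      rw [mem_insert, mem_singleton, not_or] at hx'
      have hd : x.1 ∣ p ^ i := Dvd.intro _ hx.1
      obtain ⟨j, hj, hxj⟩ := (Nat.dvd_prime_pow hp).1 hd
      have hj2 : 2 ≤ j := by
        by_contra hlt
        have hj01 : j = 0 ∨ j = 1 := by omega
        rcases hj01 with h1 | h1
        · apply hx'.1
          rw [h1, pow_zero] at hxj
          ext
          · exact hxj
          · have := hx.1
            rw [hxj, one_mul] at this
            exact this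
        · apply hx'.2
          rw [h1, pow_one] at hxj
          ext
          · exact hxj
          · have := hx.1
            rw [hxj] at this
            have h2 : p * x.2 = p * p ^ (i - 1) := by
              rw [this, ← pow_succ', Nat.sub_add_cancel h]
            exact Nat.eq_of_mul_eq_mul_left hp.pos h2
      have : moebius x.1 = 0 := by
        rw [hxj]
        apply moebius_eq_zero_of_not_squarefree
        intro hsq
        have h3 := (Nat.squarefree_pow_iff hp.ne_one (by omega)).1 hsq
        omega
      rw [this, zero_mul]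
  rw [hsum, mq_apply, rq_apply, rq_apply]
  have h0 : ∀ j, p ^ j ≠ 0 := fun j => pow_ne_zero _ hp.ne_zero
  have hpf : (p ^ i).primeFactors = {p} := Nat.primeFactors_prime_pow (by omega) hp
  have hcop : (p ^ i).Coprime q ↔ ¬ p ∣ q := by
    rw [Nat.coprime_pow_left_iff h, Nat.Prime.coprime_iff_not_dvd hp]
  by_cases hpq : p ∣ q
  · have hmem : p ∈ q.primeFactors := Nat.mem_primeFactors.2 ⟨hp, hpq, hq⟩
    rw [if_neg (by rw [hcop]; exact not_not.2 hpq), if_pos ⟨h0 i, by
      rw [hpf]; exact singleton_subset_iff.2 hmem⟩, if_pos ⟨h0 _, by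
      intro r hr
      have h1 := (Nat.mem_primeFactors.1 hr)
      have h2 : r ∣ p := h1.1.dvd_of_dvd_pow h1.2.1
      rw [(Nat.prime_dvd_prime_iff_eq h1.1 hp).1 h2]
      exact hmem⟩]
    ring
  · have hnmem : p ∉ q.primeFactors := fun h1 => hpq (Nat.dvd_of_mem_primeFactors h1)
    rw [if_pos (hcop.2 hpq), if_neg (by
      rintro ⟨-, h1⟩
      rw [hpf] at h1
      exact hnmem (singleton_subset_iff.1 h1))]
    rcases Nat.lt_or_ge 1 i with h1 | h1
    · have hpf' : (p ^ (i - 1)).primeFactors = {p} := Nat.primeFactors_prime_pow (by omega) hp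
      rw [if_neg (by
        rintro ⟨-, h2⟩
        rw [hpf'] at h2
        exact hnmem (singleton_subset_iff.1 h2))]
      rw [moebius_eq_zero_of_not_squarefree]
      · ring
      · intro hsq
        have h3 := (Nat.squarefree_pow_iff hp.ne_one (by omega)).1 hsq
        omega
    · have hi : i = 1 := by omega
      subst hi
      simp [moebius_apply_prime hp]

theorem mu_cop (q k : ℕ) (hq : q ≠ 0) :
    (if k.Coprime q then moebius k else 0) =
      ∑ x ∈ k.divisorsAntidiagonal, moebius x.1 * rq q x.2 := by
  have h := congrArg (fun f : ArithmeticFunction ℤ => f k) (mq_eq q hq)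
  simp only [mul_apply] at h
  exact h

end Pool.Agent.R311.DEH
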