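import Mathlib
import Pool.Agent.H373R2.T7.SupMu
import Pool.Agent.R311.DEH.A2

/-! Davenport's bound for the Moebius function on the multiples of `q`. -/

set_option autoImplicit false

namespace Pool.Agent.R311.DEH
open Finset
open Pool.Agent.H807R2.Dav
open Pool.Agent.H373R2.T7

/-- Davenport's bound for all shorter sums at once -/
theorem dav_partial (U : ℕ) : ∃ Y0 : ℕ, ∀ Y : ℕ, Y0 ≤ Y → ∀ y : ℕ, y ≤ Y → ∀ α : ℝ,
    ‖∑ n ∈ Icc 1 y, ((muR n : ℝ) : ℂ) * ee ((n : ℝ) * α)‖ ≤ Y / Real.log Y ^ U := by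
  obtain ⟨N0, h0⟩ := sup_mu (U + 1)
  obtain ⟨m1, e1⟩ := ev_log' U 1
  obtain ⟨m2, e2⟩ := ev_L' (2 ^ (U + 1) + 1)
  refine ⟨max (max m1 m2) (max (N0 * N0) 4), fun Y hY y hy α => ?_⟩
  have a1 := e1 Y (le_trans (le_trans (le_max_left _ _) (le_max_left _ _)) hY)
  have a2 := e2 Y (le_trans (le_trans (le_max_right _ _) (le_max_left _ _)) hY)
  have a3 : N0 * N0 ≤ Y := le_trans (le_trans (le_max_left _ _) (le_max_right _ _)) hY
  have a4 : 4 ≤ Y := le_trans (le_trans (le_max_right _ _) (le_max_right _ _)) hY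
  have hYr : (4 : ℝ) ≤ Y := by exact_mod_cast a4
  have hY0 : (0 : ℝ) < Y := by linarith
  set L := Real.log Y with hL
  have p1 : (1 : ℝ) ≤ 2 ^ (U + 1) := one_le_pow₀ (by norm_num)
  have hL1 : 1 ≤ L := by linarith
  have hL0 : 0 < L := by linarith
  rw [one_mul] at a1
  rcases le_or_gt ((y : ℝ)) (√Y) with h | h
  · have t1 : ‖∑ n ∈ Icc 1 y, ((muR n : ℝ) : ℂ) * ee ((n : ℝ) * α)‖ ≤ y := by
      refine (norm_sum_le _ _).trans ?_
      refine (sum_le_sum fun n _ => (?_ : _ ≤ (1 : ℝ))).trans ?_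
      · rw [norm_mul, norm_ee, mul_one, Complex.norm_real, Real.norm_eq_abs]
        exact muR_abs n
      · rw [sum_const, Nat.card_Icc, nsmul_eq_mul, mul_one]
        simp
    refine t1.trans (h.trans ?_)
    rw [le_div_iff₀ (by positivity)]
    calc √(Y : ℝ) * L ^ U ≤ √Y * √Y := mul_le_mul_of_nonneg_left a1 (Real.sqrt_nonneg _)
      _ = Y := Real.mul_self_sqrt hY0.le
  · have hyN : N0 ≤ y := by
      have h1 : (N0 : ℝ) ≤ √Y := by
        apply Real.le_sqrt_of_sq_le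
        rw [sq]
        exact_mod_cast a3
      exact_mod_cast h1.trans h.le
    have h1 := h0 y hyN α
    refine h1.trans ?_
    have hy0 : (0 : ℝ) < y := lt_of_le_of_lt (Real.sqrt_nonneg _) h
    have hly : L / 2 ≤ Real.log y := by
      have h2 := Real.log_le_log (Real.sqrt_pos.2 hY0) h.le
      rw [Real.log_sqrt hY0.le] at h2
      exact h2
    have hyY : (y : ℝ) ≤ Y := by exact_mod_cast hy
    have h3 : L ^ U ≤ Real.log y ^ (U + 1) := by
      calc L ^ U = L ^ U * 2 ^ (U + 1) / 2 ^ (U + 1) := by field_simp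
        _ ≤ L ^ U * L / 2 ^ (U + 1) := by
            apply div_le_div_of_nonneg_right _ (by positivity)
            exact mul_le_mul_of_nonneg_left (by linarith) (by positivity)
        _ = (L / 2) ^ (U + 1) := by rw [div_pow, pow_succ L U]
        _ ≤ _ := pow_le_pow_left₀ (by positivity) hly _
    calc (y : ℝ) / Real.log y ^ (U + 1) ≤ y / L ^ U :=
          div_le_div_of_nonneg_left hy0.le (by positivity) h3
      _ ≤ Y / L ^ U := div_le_div_of_nonneg_right hyY (by positivity)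

/-- the harmonic sum over the integers in `(D, X]` all of whose prime factors divide `q` -/
noncomputable def tl (q D X : ℕ) : ℝ :=
  ∑ d ∈ (Ioc D X).filter (fun d => d.primeFactors ⊆ q.primeFactors), 1 / (d : ℝ)

lemma tl_nonneg (q D X : ℕ) : 0 ≤ tl q D X := sum_nonneg fun _ _ => by positivity

lemma tl_mono (q : ℕ) {D D' X X' : ℕ} (h : D ≤ D') (h' : X' ≤ X) : tl q D' X' ≤ tl q D X := by
  unfold tl
  apply sum_le_sum_of_subset_of_nonneg
  · intro d hd
    rw [mem_filter, mem_Ioc] at hd ⊢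
    exact ⟨⟨by omega, by omega⟩, hd.2⟩
  · intro _ _ _; positivity

lemma hyp1 (y : ℕ) (g : ℕ → ℕ → ℂ) :
    ∑ n ∈ Icc 1 y, ∑ i ∈ n.divisorsAntidiagonal, g i.1 i.2 =
      ∑ d ∈ Icc 1 y, ∑ l ∈ Icc 1 (y / d), g l d := by
  rw [sum_sigma', sum_sigma']
  apply sum_nbij' (fun p => (⟨p.2.2, p.2.1⟩ : (_ : ℕ) × ℕ))
    (fun q => (⟨q.2 * q.1, (q.2, q.1)⟩ : (_ : ℕ) × (ℕ × ℕ)))
  · rintro ⟨n, a, b⟩ h
    simp only [mem_sigma, mem_Icc, Nat.mem_divisorsAntidiagonal] at h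
    obtain ⟨⟨h1, h2⟩, h3, h4⟩ := h
    have ha : 0 < a := Nat.pos_of_ne_zero (by rintro rfl; simp at h3; omega)
    have hb : 0 < b := Nat.pos_of_ne_zero (by rintro rfl; simp at h3; omega)
    simp only [mem_sigma, mem_Icc]
    refine ⟨⟨hb, ?_⟩, ha, ?_⟩
    · calc b ≤ a * b := Nat.le_mul_of_pos_left _ ha
        _ ≤ y := by rw [h3]; exact h2
    · rw [Nat.le_div_iff_mul_le hb, h3]; exact h2
  · rintro ⟨d, l⟩ h
    simp only [mem_sigma, mem_Icc] at h
    obtain ⟨⟨h1, h2⟩, h3, h4⟩ := h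
    have h5 := (Nat.le_div_iff_mul_le h1).1 h4
    simp only [mem_sigma, mem_Icc, Nat.mem_divisorsAntidiagonal]
    refine ⟨⟨Nat.mul_pos h3 h1, h5⟩, trivial, (Nat.mul_pos h3 h1).ne'⟩
  · rintro ⟨n, a, b⟩ h
    simp only [mem_sigma, mem_Icc, Nat.mem_divisorsAntidiagonal] at h
    obtain ⟨⟨h1, h2⟩, h3, h4⟩ := h
    subst h3
    rfl
  · rintro ⟨d, l⟩ _
    rfl
  · rintro ⟨n, a, b⟩ _
    rfl

/-- the exponential sum over the integers coprime to `q` -/
theorem cop_sum (q : ℕ) (hq : q ≠ 0) (y : ℕ) (β : ℝ) :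
    ∑ k ∈ Icc 1 y, (if k.Coprime q then ((muR k : ℝ) : ℂ) else 0) * ee ((k : ℝ) * β) =
      ∑ d ∈ Icc 1 y, ((rq q d : ℤ) : ℂ) *
        ∑ l ∈ Icc 1 (y / d), ((muR l : ℝ) : ℂ) * ee ((l : ℝ) * ((d : ℝ) * β)) := by
  have h1 : ∀ k ∈ Icc 1 y, (if k.Coprime q then ((muR k : ℝ) : ℂ) else 0) * ee ((k : ℝ) * β) =
      ∑ i ∈ k.divisorsAntidiagonal, ((rq q i.2 : ℤ) : ℂ) * (((muR i.1 : ℝ) : ℂ) *
        ee ((i.1 : ℝ) * ((i.2 : ℝ) * β))) := by
    intro k _
    have h2 : (if k.Coprime q then ((muR k : ℝ) : ℂ) else 0) =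
        (((if k.Coprime q then ArithmeticFunction.moebius k else 0) : ℤ) : ℂ) := by
      unfold muR
      split_ifs <;> simp
    rw [h2, mu_cop q k hq]
    push_cast
    rw [sum_mul]
    apply sum_congr rfl
    intro i hi
    have h3 := (Nat.mem_divisorsAntidiagonal.1 hi).1
    have h4 : ee ((k : ℝ) * β) = ee ((i.1 : ℝ) * ((i.2 : ℝ) * β)) := by
      congr 1
      rw [← h3]
      push_cast
      ring
    rw [h4]
    unfold muR
    push_cast
    ring
  rw [sum_congr rfl h1, hyp1 y (fun l d => ((rq q d : ℤ) : ℂ) * (((muR l : ℝ) : ℂ) *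
    ee ((l : ℝ) * ((d : ℝ) * β))))]
  apply sum_congr rfl
  intro d _
  rw [mul_sum]

lemma norm_rq_le (q d : ℕ) : ‖((rq q d : ℤ) : ℂ)‖ ≤ 1 := by
  rw [rq_apply]
  split_ifs <;> simp

lemma harm_le (y : ℕ) : ∑ d ∈ Icc 1 y, 1 / (d : ℝ) ≤ 1 + Real.log y := by
  have h := harmonic_le_one_add_log y
  refine le_trans (le_of_eq ?_) h
  rw [harmonic_eq_sum_Icc]
  push_cast
  exact sum_congr rfl fun x _ => one_div _

/-- the cut -/
def ct (Y : ℕ) : ℕ := Nat.sqrt (Nat.sqrt Y)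

lemma ct_mono {Y Y' : ℕ} (h : Y ≤ Y') : ct Y ≤ ct Y' := Nat.sqrt_le_sqrt (Nat.sqrt_le_sqrt h)

lemma ct_div {Y d : ℕ} (hY : 4 ≤ Y) (hd : 1 ≤ d) (hdc : d ≤ ct Y) : Nat.sqrt Y + 1 ≤ Y / d := by
  rw [Nat.le_div_iff_mul_le hd]
  have h1 : ct Y * ct Y ≤ Nat.sqrt Y := Nat.sqrt_le _
  have h2 : Nat.sqrt Y * Nat.sqrt Y ≤ Y := Nat.sqrt_le _
  have h3 : 2 ≤ Nat.sqrt Y := Nat.le_sqrt.2 (by omega)
  rcases Nat.lt_or_ge (ct Y) 2 with h | h
  · have hd1 : d = 1 := by omega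
    rw [hd1, mul_one]
    nlinarith
  · have h4 : 2 * ct Y ≤ Nat.sqrt Y := (Nat.mul_le_mul_right _ h).trans h1
    calc (Nat.sqrt Y + 1) * d ≤ (2 * Nat.sqrt Y) * ct Y := Nat.mul_le_mul (by omega) hdc
      _ = (2 * ct Y) * Nat.sqrt Y := by ring
      _ ≤ Nat.sqrt Y * Nat.sqrt Y := Nat.mul_le_mul_right _ h4
      _ ≤ Y := h2

/-- The exponential sum of the Moebius function over the integers `k ≤ y` coprime to `q`, where
`y ≤ Y`: a main part with arbitrary logarithmic savings, and a tail. -/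
theorem cop_bound (U : ℕ) : ∃ Y0 : ℕ, 4 ≤ Y0 ∧ ∀ Y : ℕ, Y0 ≤ Y → ∀ y : ℕ, y ≤ Y → ∀ q : ℕ, q ≠ 0 →
    ∀ β : ℝ, ‖∑ k ∈ Icc 1 y, (if k.Coprime q then ((muR k : ℝ) : ℂ) else 0) * ee ((k : ℝ) * β)‖ ≤
      Y * (2 ^ U * (1 + Real.log Y) / Real.log Y ^ U + tl q (ct Y) Y) := by
  obtain ⟨N0, h0⟩ := dav_partial U
  refine ⟨max (N0 * N0) 4, le_max_right _ _, fun Y hY y hy q hq β => ?_⟩
  have a3 : N0 * N0 ≤ Y := le_trans (le_max_left _ _) hY
  have a4 : 4 ≤ Y := le_trans (le_max_right _ _) hY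
  have hYr : (4 : ℝ) ≤ Y := by exact_mod_cast a4
  have hY0 : (0 : ℝ) < Y := by linarith
  set L := Real.log Y with hL
  have hL0 : 0 < L := Real.log_pos (by linarith)
  rw [cop_sum q hq]
  refine (norm_sum_le _ _).trans ?_
  have hsplit : ∀ d ∈ Icc 1 y, ‖((rq q d : ℤ) : ℂ) *
      ∑ l ∈ Icc 1 (y / d), ((muR l : ℝ) : ℂ) * ee ((l : ℝ) * ((d : ℝ) * β))‖ ≤
      Y * (2 ^ U / L ^ U) * (1 / (d : ℝ)) +
        Y * (if ct Y < d ∧ d.primeFactors ⊆ q.primeFactors then 1 / (d : ℝ) else 0) := by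
    intro d hd
    rw [mem_Icc] at hd
    have hd0 : (0 : ℝ) < d := by exact_mod_cast hd.1
    rw [norm_mul]
    rcases le_or_gt d (ct Y) with h | h
    · have hdiv := ct_div a4 hd.1 h
      have hN0 : N0 ≤ Y / d := by
        have : N0 ≤ Nat.sqrt Y := Nat.le_sqrt.2 a3
        omega
      have h1 := h0 (Y / d) hN0 (y / d) (Nat.div_le_div_right hy) ((d : ℝ) * β)
      have h2 : ((Y / d : ℕ) : ℝ) ≤ Y / d := Nat.cast_div_le
      have h4 : L / 2 ≤ Real.log ((Y / d : ℕ) : ℝ) := by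
        have h5 : (Y : ℝ) ≤ (((Y / d : ℕ) : ℝ)) ^ 2 := by
          have h6 : Y < (Nat.sqrt Y + 1) * (Nat.sqrt Y + 1) := Nat.lt_succ_sqrt Y
          have h7 : Y ≤ (Y / d) * (Y / d) := h6.le.trans (Nat.mul_le_mul hdiv hdiv)
          rw [sq]
          exact_mod_cast h7
        have h10 := Real.log_le_log hY0 h5
        rw [Real.log_pow] at h10
        push_cast at h10
        linarith
      have h5 : ((Y / d : ℕ) : ℝ) / Real.log ((Y / d : ℕ) : ℝ) ^ U ≤ Y * (2 ^ U / L ^ U) * (1 / d) := by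
        calc ((Y / d : ℕ) : ℝ) / Real.log ((Y / d : ℕ) : ℝ) ^ U ≤ (Y / d) / (L / 2) ^ U := by
              apply div_le_div₀ (by positivity) h2 (by positivity)
              exact pow_le_pow_left₀ (by positivity) h4 _
          _ = _ := by rw [div_pow]; field_simp
      have h6 : (0 : ℝ) ≤ Y * (if ct Y < d ∧ d.primeFactors ⊆ q.primeFactors then 1 / (d : ℝ) else 0) := by
        split_ifs <;> positivity
      calc _ ≤ 1 * (Y * (2 ^ U / L ^ U) * (1 / d)) :=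
            mul_le_mul (norm_rq_le q d) (h1.trans h5) (norm_nonneg _) zero_le_one
        _ ≤ _ := by linarith
    · have t1 : ‖∑ l ∈ Icc 1 (y / d), ((muR l : ℝ) : ℂ) * ee ((l : ℝ) * ((d : ℝ) * β))‖ ≤ Y * (1 / d) := by
        refine (norm_sum_le _ _).trans ?_
        refine (sum_le_sum fun n _ => (?_ : _ ≤ (1 : ℝ))).trans ?_
        · rw [norm_mul, norm_ee, mul_one, Complex.norm_real, Real.norm_eq_abs]
          exact muR_abs n
        · rw [sum_const, Nat.card_Icc, nsmul_eq_mul, mul_one]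
          have h2 : ((y / d : ℕ) : ℝ) ≤ y / d := Nat.cast_div_le
          have h3 : (y : ℝ) / d ≤ Y / d := div_le_div_of_nonneg_right (by exact_mod_cast hy) hd0.le
          rw [Nat.add_sub_cancel]
          calc _ ≤ _ := h2
            _ ≤ _ := h3
            _ = _ := by ring
      have h6 : (0 : ℝ) ≤ Y * (2 ^ U / L ^ U) * (1 / d) := by positivity
      by_cases hc : d.primeFactors ⊆ q.primeFactors
      · rw [if_pos ⟨h, hc⟩]
        calc _ ≤ 1 * (Y * (1 / (d : ℝ))) := mul_le_mul (norm_rq_le q d) t1 (norm_nonneg _) zero_le_one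
          _ ≤ _ := by linarith
      · rw [rq_apply, if_neg (fun hh => hc hh.2), if_neg (fun hh => hc hh.2)]
        simp only [Int.cast_zero, norm_zero, zero_mul, mul_zero, add_zero]
        exact h6
  refine (sum_le_sum hsplit).trans ?_
  rw [sum_add_distrib, ← mul_sum, ← mul_sum]
  have e1 : ∑ d ∈ Icc 1 y, 1 / (d : ℝ) ≤ 1 + L := by
    refine (sum_le_sum_of_subset_of_nonneg (Icc_subset_Icc le_rfl hy) (fun _ _ _ => by positivity)).trans ?_
    exact harm_le Y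
  have e2 : ∑ d ∈ Icc 1 y, (if ct Y < d ∧ d.primeFactors ⊆ q.primeFactors then 1 / (d : ℝ) else 0) ≤
      tl q (ct Y) Y := by
    rw [← sum_filter]
    unfold tl
    apply sum_le_sum_of_subset_of_nonneg
    · intro d hd
      rw [mem_filter, mem_Icc] at hd
      rw [mem_filter, mem_Ioc]
      exact ⟨⟨hd.2.1, by omega⟩, hd.2.2⟩
    · intro _ _ _; positivity
  calc _ ≤ Y * (2 ^ U / L ^ U) * (1 + L) + Y * tl q (ct Y) Y := by
        apply add_le_add
        · exact mul_le_mul_of_nonneg_left e1 (by positivity)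
        · exact mul_le_mul_of_nonneg_left e2 hY0.le
    _ = _ := by ring

/-- the sum over the multiples of `q` -/
theorem mult_bound (U : ℕ) : ∃ Y0 : ℕ, 4 ≤ Y0 ∧ ∀ X q : ℕ, 1 ≤ q → Y0 ≤ X / q → ∀ x : ℕ, x ≤ X →
    ∀ α : ℝ, ‖∑ m ∈ Icc 1 x, (if q ∣ m then ((muR m : ℝ) : ℂ) else 0) * ee ((m : ℝ) * α)‖ ≤
      (X / q) * (2 ^ U * (1 + Real.log X) / Real.log ((X / q : ℕ) : ℝ) ^ U + tl q (ct (X / q)) X) := by
  obtain ⟨Y0, hY0, h⟩ := cop_bound U
  refine ⟨Y0, hY0, fun X q hq hXq x hx α => ?_⟩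
  have hq0 : (0 : ℝ) < q := by exact_mod_cast hq
  have h1 := h (X / q) hXq (x / q) (Nat.div_le_div_right hx) q (by omega) ((q : ℝ) * α)
  have hX4 : 4 ≤ X / q := hY0.trans hXq
  have hXX : X / q ≤ X := Nat.div_le_self _ _
  have hX0 : (4 : ℝ) ≤ ((X / q : ℕ) : ℝ) := by exact_mod_cast hX4
  have e1 : ∑ m ∈ Icc 1 x, (if q ∣ m then ((muR m : ℝ) : ℂ) else 0) * ee ((m : ℝ) * α) =
      ((muR q : ℝ) : ℂ) * ∑ k ∈ Icc 1 (x / q), (if k.Coprime q then ((muR k : ℝ) : ℂ) else 0) *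
        ee ((k : ℝ) * ((q : ℝ) * α)) := by
    rw [mul_sum]
    have e2 : ∑ m ∈ Icc 1 x, (if q ∣ m then ((muR m : ℝ) : ℂ) else 0) * ee ((m : ℝ) * α) =
        ∑ m ∈ (Icc 1 x).filter (fun m => q ∣ m), ((muR m : ℝ) : ℂ) * ee ((m : ℝ) * α) := by
      rw [sum_filter]
      apply sum_congr rfl
      intro m _
      split_ifs <;> simp
    rw [e2]
    symm
    apply sum_bij' (fun k _ => q * k) (fun m _ => m / q)
    · intro k hk
      rw [mem_Icc] at hk
      rw [mem_filter, mem_Icc]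
      refine ⟨⟨Nat.mul_pos hq hk.1, ?_⟩, Dvd.intro _ rfl⟩
      calc q * k ≤ q * (x / q) := Nat.mul_le_mul_left _ hk.2
        _ ≤ x := Nat.mul_div_le _ _
    · intro m hm
      rw [mem_filter, mem_Icc] at hm
      rw [mem_Icc]
      exact ⟨Nat.div_pos (Nat.le_of_dvd hm.1.1 hm.2) hq, Nat.div_le_div_right hm.1.2⟩
    · intro k _
      exact Nat.mul_div_cancel_left _ hq
    · intro m hm
      rw [mem_filter] at hm
      exact Nat.mul_div_cancel' hm.2
    · intro k _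
      have e3 : ee (((q * k : ℕ) : ℝ) * α) = ee ((k : ℝ) * ((q : ℝ) * α)) := by
        congr 1; push_cast; ring
      rw [e3, ← mul_assoc]
      congr 1
      by_cases hc : k.Coprime q
      · rw [if_pos hc]
        unfold muR
        rw [ArithmeticFunction.isMultiplicative_moebius.map_mul_of_coprime hc.symm]
        push_cast
        ring
      · rw [if_neg hc, mul_zero]
        unfold muR
        have : ArithmeticFunction.moebius (q * k) = 0 := by
          apply ArithmeticFunction.moebius_eq_zero_of_not_squarefree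
          intro hsq
          exact hc (Nat.coprime_of_squarefree_mul hsq).symm
        rw [this]; simp
  rw [e1, norm_mul]
  have h2 : ‖((muR q : ℝ) : ℂ)‖ ≤ 1 := by
    rw [Complex.norm_real, Real.norm_eq_abs]; exact muR_abs q
  have h3 : ((X / q : ℕ) : ℝ) ≤ X / q := Nat.cast_div_le
  have hlog : Real.log ((X / q : ℕ) : ℝ) ≤ Real.log X :=
    Real.log_le_log (by linarith) (by exact_mod_cast hXX)
  have hlpos : 0 < Real.log ((X / q : ℕ) : ℝ) := Real.log_pos (by linarith)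
  have h4 : 0 ≤ 2 ^ U * (1 + Real.log ((X / q : ℕ) : ℝ)) / Real.log ((X / q : ℕ) : ℝ) ^ U +
      tl q (ct (X / q)) (X / q) := add_nonneg (by positivity) (tl_nonneg _ _ _)
  calc _ ≤ 1 * (((X / q : ℕ) : ℝ) * (2 ^ U * (1 + Real.log ((X / q : ℕ) : ℝ)) /
        Real.log ((X / q : ℕ) : ℝ) ^ U + tl q (ct (X / q)) (X / q))) :=
        mul_le_mul h2 h1 (norm_nonneg _) zero_le_one
    _ ≤ (X / q) * (2 ^ U * (1 + Real.log ((X / q : ℕ) : ℝ)) /
        Real.log ((X / q : ℕ) : ℝ) ^ U + tl q (ct (X / q)) (X / q)) := by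
        rw [one_mul]; exact mul_le_mul_of_nonneg_right h3 h4
    _ ≤ _ := by
        apply mul_le_mul_of_nonneg_left _ (by positivity)
        apply add_le_add
        · apply div_le_div_of_nonneg_right _ (by positivity)
          exact mul_le_mul_of_nonneg_left (by linarith) (by positivity)
        · exact tl_mono q le_rfl hXX

end Pool.Agent.R311.DEH
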