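import Mathlib
import Pool.Agent.R311.DEH.A3

/-! The tails, summed over the moduli. -/

set_option autoImplicit false

namespace Pool.Agent.R311.DEH
open Finset

/-- the radical -/
def rd (d : ℕ) : ℕ := ∏ p ∈ d.primeFactors, p

lemma rd_pos (d : ℕ) : 0 < rd d := prod_pos fun _ hp => (Nat.prime_of_mem_primeFactors hp).pos

lemma rd_dvd {d q : ℕ} (h : d.primeFactors ⊆ q.primeFactors) : rd d ∣ q :=
  (prod_dvd_prod_of_subset _ _ _ h).trans (Nat.prod_primeFactors_dvd q)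

lemma sum_mult_inv (X r : ℕ) (hr : 0 < r) :
    ∑ q ∈ (Icc 1 X).filter (fun q => r ∣ q), 1 / (q : ℝ) ≤ (1 / r) * (1 + Real.log X) := by
  have hr0 : (0 : ℝ) < r := by exact_mod_cast hr
  have e1 : ∑ q ∈ (Icc 1 X).filter (fun q => r ∣ q), 1 / (q : ℝ) =
      ∑ k ∈ Icc 1 (X / r), (1 / r) * (1 / (k : ℝ)) := by
    symm
    apply sum_bij' (fun k _ => r * k) (fun m _ => m / r)
    · intro k hk
      rw [mem_Icc] at hk
      rw [mem_filter, mem_Icc]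
      refine ⟨⟨Nat.mul_pos hr hk.1, ?_⟩, Dvd.intro _ rfl⟩
      calc r * k ≤ r * (X / r) := Nat.mul_le_mul_left _ hk.2
        _ ≤ X := Nat.mul_div_le _ _
    · intro m hm
      rw [mem_filter, mem_Icc] at hm
      rw [mem_Icc]
      exact ⟨Nat.div_pos (Nat.le_of_dvd hm.1.1 hm.2) hr, Nat.div_le_div_right hm.1.2⟩
    · intro k _
      exact Nat.mul_div_cancel_left _ hr
    · intro m hm
      rw [mem_filter] at hm
      exact Nat.mul_div_cancel' hm.2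
    · intro k _
      push_cast
      rw [one_div_mul_one_div]
  rw [e1, ← mul_sum]
  apply mul_le_mul_of_nonneg_left _ (by positivity)
  refine (sum_le_sum_of_subset_of_nonneg (Icc_subset_Icc le_rfl (Nat.div_le_self _ _))
    (fun _ _ _ => by positivity)).trans ?_
  exact harm_le X

theorem sum_tl (D X : ℕ) : ∑ q ∈ Icc 1 X, 1 / (q : ℝ) * tl q D X ≤
    (1 + Real.log X) * ∑ d ∈ Ioc D X, 1 / ((d : ℝ) * rd d) := by
  unfold tl
  have e1 : ∑ q ∈ Icc 1 X, 1 / (q : ℝ) *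
      ∑ d ∈ (Ioc D X).filter (fun d => d.primeFactors ⊆ q.primeFactors), 1 / (d : ℝ) =
      ∑ d ∈ Ioc D X, (1 / (d : ℝ)) *
        ∑ q ∈ (Icc 1 X).filter (fun q => d.primeFactors ⊆ q.primeFactors), 1 / (q : ℝ) := by
    simp_rw [mul_sum, sum_filter]
    rw [sum_comm]
    apply sum_congr rfl
    intro d _
    apply sum_congr rfl
    intro q _
    split_ifs
    · ring
    · rfl
  rw [e1, mul_sum]
  apply sum_le_sum
  intro d _
  have h1 : ∑ q ∈ (Icc 1 X).filter (fun q => d.primeFactors ⊆ q.primeFactors), 1 / (q : ℝ) ≤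
      (1 / (rd d : ℝ)) * (1 + Real.log X) := by
    refine le_trans ?_ (sum_mult_inv X (rd d) (rd_pos d))
    apply sum_le_sum_of_subset_of_nonneg
    · intro q hq
      rw [mem_filter] at hq ⊢
      exact ⟨hq.1, rd_dvd hq.2⟩
    · intro _ _ _; positivity
  calc (1 / (d : ℝ)) * _ ≤ (1 / (d : ℝ)) * ((1 / (rd d : ℝ)) * (1 + Real.log X)) :=
        mul_le_mul_of_nonneg_left h1 (by positivity)
    _ = _ := by rw [one_div_mul_eq_div, ← one_div_mul_one_div]; ring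

lemma sq_sum_le (X : ℕ) : ∑ a ∈ Icc 1 X, 1 / (a : ℝ) ^ 2 ≤ 2 := by
  rcases Nat.eq_zero_or_pos X with h | h
  · subst h; simp
  have h1 : Icc 1 X = insert 1 (Ioc 1 X) := by
    ext x; rw [mem_insert, mem_Icc, mem_Ioc]; omega
  rw [h1, sum_insert (by simp)]
  have h2 := sum_Ioc_inv_sq_le_sub (α := ℝ) (k := 1) (n := X) one_ne_zero h
  have h3 : ∑ a ∈ Ioc 1 X, 1 / (a : ℝ) ^ 2 = ∑ a ∈ Ioc 1 X, ((a : ℝ) ^ 2)⁻¹ :=
    sum_congr rfl fun _ _ => one_div _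
  rw [h3]
  have h4 : (0 : ℝ) ≤ ((X : ℝ))⁻¹ := by positivity
  push_cast at h2
  norm_num at h2 ⊢
  linarith

lemma sq_tail_le (T X : ℕ) (hT : 1 ≤ T) : ∑ a ∈ Ioc T X, 1 / (a : ℝ) ^ 2 ≤ 1 / (T : ℝ) := by
  rcases le_or_gt T X with h | h
  · have h2 := sum_Ioc_inv_sq_le_sub (α := ℝ) (k := T) (n := X) (by omega) h
    have h3 : ∑ a ∈ Ioc T X, 1 / (a : ℝ) ^ 2 = ∑ a ∈ Ioc T X, ((a : ℝ) ^ 2)⁻¹ :=
      sum_congr rfl fun _ _ => one_div _
    rw [h3]
    have h4 : (0 : ℝ) ≤ ((X : ℝ))⁻¹ := by positivity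
    rw [one_div]
    linarith
  · rw [Ioc_eq_empty_of_le h.le, sum_empty]
    positivity

theorem rad_tail (T D X : ℕ) (hT : 1 ≤ T) (hTD : T ^ 3 ≤ D) :
    ∑ d ∈ Ioc D X, 1 / ((d : ℝ) * rd d) ≤ 4 / T := by
  have hex : ∀ d : ℕ, ∃ p : ℕ × ℕ, p.2 ^ 2 * p.1 = d ∧ Squarefree p.1 := by
    intro d
    obtain ⟨a, b, h1, h2⟩ := Nat.sq_mul_squarefree d
    exact ⟨(a, b), h1, h2⟩
  choose f hf1 hf2 using hex
  set S1 : Finset (ℕ × ℕ) := Ioc T X ×ˢ Icc 1 X with hS1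
  set S2 : Finset (ℕ × ℕ) := Icc 1 X ×ˢ Ioc T X with hS2
  have hinj : Function.Injective f := by
    intro d d' h
    rw [← hf1 d, ← hf1 d', h]
  have hterm : ∀ d ∈ Ioc D X, 1 / ((d : ℝ) * rd d) ≤ 1 / ((f d).1 : ℝ) ^ 2 * (1 / ((f d).2 : ℝ) ^ 2) := by
    intro d hd
    rw [mem_Ioc] at hd
    have hd0 : 0 < d := by omega
    have h1 := hf1 d
    have ha0 : 0 < (f d).1 := Nat.pos_of_ne_zero (hf2 d).ne_zero
    have hb0 : 0 < (f d).2 := by
      rcases Nat.eq_zero_or_pos (f d).2 with h | h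
      · rw [h] at h1; simp at h1; omega
      · exact h
    have hdvd : (f d).1 ∣ d := Dvd.intro_left _ h1
    have hard : (f d).1 ≤ rd d := by
      have h2 : (f d).1 = rd (f d).1 := (Nat.prod_primeFactors_of_squarefree (hf2 d)).symm
      rw [h2]
      exact Nat.le_of_dvd (rd_pos d) (prod_dvd_prod_of_subset _ _ _
        (Nat.primeFactors_mono hdvd (by omega)))
    rw [one_div_mul_one_div]
    apply one_div_le_one_div_of_le
    · have : (0 : ℝ) < (f d).1 := by exact_mod_cast ha0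
      have : (0 : ℝ) < (f d).2 := by exact_mod_cast hb0
      positivity
    · have h3 : (f d).1 ^ 2 * (f d).2 ^ 2 ≤ d * rd d := by
        calc (f d).1 ^ 2 * (f d).2 ^ 2 = ((f d).2 ^ 2 * (f d).1) * (f d).1 := by ring
          _ = d * (f d).1 := by rw [h1]
          _ ≤ d * rd d := Nat.mul_le_mul_left _ hard
      exact_mod_cast h3
  have hmem : ∀ d ∈ Ioc D X, f d ∈ S1 ∪ S2 := by
    intro d hd
    rw [mem_Ioc] at hd
    have hd0 : 0 < d := by omega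
    have h1 := hf1 d
    have ha0 : 0 < (f d).1 := Nat.pos_of_ne_zero (hf2 d).ne_zero
    have hb0 : 0 < (f d).2 := by
      rcases Nat.eq_zero_or_pos (f d).2 with h | h
      · rw [h] at h1; simp at h1; omega
      · exact h
    have ha : (f d).1 ≤ X := (Nat.le_of_dvd hd0 (Dvd.intro_left _ h1)).trans hd.2
    have hb : (f d).2 ≤ X := by
      refine le_trans ?_ hd.2
      refine Nat.le_of_dvd hd0 ?_
      exact (dvd_pow_self _ two_ne_zero).trans (Dvd.intro _ h1)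
    rw [mem_union, hS1, hS2, mem_product, mem_product, mem_Ioc, mem_Icc, mem_Icc, mem_Ioc]
    rcases Nat.lt_or_ge T (f d).1 with h | h
    · left; exact ⟨⟨h, ha⟩, hb0, hb⟩
    · right
      refine ⟨⟨ha0, ha⟩, ?_, hb⟩
      by_contra hcon
      push Not at hcon
      have h2 : (f d).2 ^ 2 * (f d).1 ≤ T ^ 2 * T :=
        Nat.mul_le_mul (Nat.pow_le_pow_left hcon 2) h
      rw [h1] at h2
      have h3 : T ^ 2 * T = T ^ 3 := by ring
      omega
  calc ∑ d ∈ Ioc D X, 1 / ((d : ℝ) * rd d) ≤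
      ∑ d ∈ Ioc D X, 1 / ((f d).1 : ℝ) ^ 2 * (1 / ((f d).2 : ℝ) ^ 2) := sum_le_sum hterm
    _ = ∑ p ∈ (Ioc D X).image f, 1 / (p.1 : ℝ) ^ 2 * (1 / (p.2 : ℝ) ^ 2) := by
        rw [sum_image (fun x _ y _ h => hinj h)]
    _ ≤ ∑ p ∈ S1 ∪ S2, 1 / (p.1 : ℝ) ^ 2 * (1 / (p.2 : ℝ) ^ 2) := by
        apply sum_le_sum_of_subset_of_nonneg
        · intro p hp
          rw [mem_image] at hp
          obtain ⟨d, hd, rfl⟩ := hp
          exact hmem d hd
        · intro _ _ _; positivity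
    _ ≤ ∑ p ∈ S1, 1 / (p.1 : ℝ) ^ 2 * (1 / (p.2 : ℝ) ^ 2) +
        ∑ p ∈ S2, 1 / (p.1 : ℝ) ^ 2 * (1 / (p.2 : ℝ) ^ 2) := by
        have := sum_union_inter (s₁ := S1) (s₂ := S2)
          (f := fun p : ℕ × ℕ => 1 / (p.1 : ℝ) ^ 2 * (1 / (p.2 : ℝ) ^ 2))
        have h0 : 0 ≤ ∑ p ∈ S1 ∩ S2, 1 / (p.1 : ℝ) ^ 2 * (1 / (p.2 : ℝ) ^ 2) :=
          sum_nonneg fun _ _ => by positivity
        linarith
    _ = (∑ a ∈ Ioc T X, 1 / (a : ℝ) ^ 2) * (∑ b ∈ Icc 1 X, 1 / (b : ℝ) ^ 2) +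
        (∑ a ∈ Icc 1 X, 1 / (a : ℝ) ^ 2) * (∑ b ∈ Ioc T X, 1 / (b : ℝ) ^ 2) := by
        rw [hS1, hS2, sum_product, sum_product, sum_mul_sum, sum_mul_sum]
    _ ≤ (1 / T) * 2 + 2 * (1 / T) := by
        have h1 := sq_tail_le T X hT
        have h2 := sq_sum_le X
        have h3 : 0 ≤ ∑ b ∈ Icc 1 X, 1 / (b : ℝ) ^ 2 := sum_nonneg fun _ _ => by positivity
        have h4 : 0 ≤ ∑ b ∈ Ioc T X, 1 / (b : ℝ) ^ 2 := sum_nonneg fun _ _ => by positivity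
        apply add_le_add
        · exact mul_le_mul h1 h2 h3 (by positivity)
        · exact mul_le_mul h2 h1 h4 (by norm_num)
    _ = 4 / T := by ring

end Pool.Agent.R311.DEH
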