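import Mathlib
import Pool.Agent.R311.DEH.A1
import Pool.Agent.R311.DEH.A4
import Pool.Agent.H398R2.BA1

/-! The average over `N` of the twisted discrepancies. -/

set_option autoImplicit false

namespace Pool.Agent.R311.DEH
open Finset
open Pool.Agent.H807R2.Dav
open Pool.Agent.H373R2.T7

/-- the Moebius function -/
noncomputable def g1 (m : ℕ) : ℝ := ((ArithmeticFunction.moebius m : ℤ) : ℝ)

/-- the Moebius function times the logarithm -/
noncomputable def g2 (m : ℕ) : ℝ := ((ArithmeticFunction.moebius m : ℤ) : ℝ) * Real.log m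

lemma abel_log (u : ℕ → ℂ) (X : ℕ) (B : ℝ) (hB : ∀ x ≤ X, ‖∑ m ∈ Icc 1 x, u m‖ ≤ B) :
    ∀ x ≤ X, ‖∑ m ∈ Icc 1 x, u m * (Real.log m : ℂ) - (∑ m ∈ Icc 1 x, u m) * (Real.log x : ℂ)‖ ≤
      B * Real.log x := by
  intro x
  induction x with
  | zero => intro _; simp
  | succ x ih =>
    intro hx
    have h1 := ih (by omega)
    rw [sum_Icc_succ_top (by omega), sum_Icc_succ_top (by omega)]
    have h2 : ∑ m ∈ Icc 1 x, u m * (Real.log m : ℂ) + u (x + 1) * (Real.log ((x + 1 : ℕ) : ℝ) : ℂ) -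
        (∑ m ∈ Icc 1 x, u m + u (x + 1)) * (Real.log ((x + 1 : ℕ) : ℝ) : ℂ) =
        (∑ m ∈ Icc 1 x, u m * (Real.log m : ℂ) - (∑ m ∈ Icc 1 x, u m) * (Real.log x : ℂ)) -
        (∑ m ∈ Icc 1 x, u m) * ((Real.log ((x + 1 : ℕ) : ℝ) - Real.log x : ℝ) : ℂ) := by
      push_cast
      ring
    rw [h2]
    refine (norm_sub_le _ _).trans ?_
    have h3 : 0 ≤ Real.log ((x + 1 : ℕ) : ℝ) - Real.log x := by
      rcases Nat.eq_zero_or_pos x with h | h
      · subst h; simp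
      · have : (0 : ℝ) < x := by exact_mod_cast h
        have := Real.log_le_log this (show (x : ℝ) ≤ ((x + 1 : ℕ) : ℝ) by push_cast; linarith)
        linarith
    have h4 : ‖(∑ m ∈ Icc 1 x, u m) * ((Real.log ((x + 1 : ℕ) : ℝ) - Real.log x : ℝ) : ℂ)‖ ≤
        B * (Real.log ((x + 1 : ℕ) : ℝ) - Real.log x) := by
      rw [norm_mul, Complex.norm_real, Real.norm_of_nonneg h3]
      exact mul_le_mul_of_nonneg_right (hB x (by omega)) h3
    linarith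

/-- the common bound for the exponential sums -/
noncomputable def dl (U X q K : ℕ) : ℝ :=
  2 * (1 + Real.log X) * ((X / q) * (2 ^ U * (1 + Real.log X) / Real.log K ^ U + tl q (ct K) X))

lemma dl_nonneg (U X q K : ℕ) (hX : 1 ≤ X) (hK : 1 ≤ K) : 0 ≤ dl U X q K := by
  have h1 : 0 ≤ Real.log X := Real.log_nonneg (by exact_mod_cast hX)
  have h2 : 0 ≤ Real.log K := Real.log_nonneg (by exact_mod_cast hK)
  have h3 := tl_nonneg q (ct K) X
  unfold dl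
  positivity

theorem g_bound (U : ℕ) : ∃ Y0 : ℕ, 4 ≤ Y0 ∧ ∀ X q K : ℕ, 1 ≤ q → Y0 ≤ K → K ≤ X / q → ∀ g : ℕ → ℝ,
    (g = g1 ∨ g = g2) → ∀ α : ℝ,
    ‖∑ m ∈ Icc 1 X, (if q ∣ m then (g m : ℂ) else 0) * ee ((m : ℝ) * α)‖ ≤ dl U X q K := by
  obtain ⟨Y0, hY0, h⟩ := mult_bound U
  refine ⟨Y0, hY0, fun X q K hq hK hKX g hg α => ?_⟩
  have hK4 : 4 ≤ K := hY0.trans hK
  have hXq : 4 ≤ X / q := hK4.trans hKX
  have hX4 : 4 ≤ X := hXq.trans (Nat.div_le_self _ _)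
  have hXr : (4 : ℝ) ≤ X := by exact_mod_cast hX4
  have hKr : (4 : ℝ) ≤ K := by exact_mod_cast hK4
  have hlX : 0 < Real.log X := Real.log_pos (by linarith)
  have hlK : 0 < Real.log K := Real.log_pos (by linarith)
  have hq0 : (0 : ℝ) < q := by exact_mod_cast hq
  set B := (X / q : ℝ) * (2 ^ U * (1 + Real.log X) / Real.log K ^ U + tl q (ct K) X) with hBdef
  have hB0 : 0 ≤ B := by
    have := tl_nonneg q (ct K) X
    positivity
  have hB : ∀ x ≤ X, ‖∑ m ∈ Icc 1 x, (if q ∣ m then ((muR m : ℝ) : ℂ) else 0) * ee ((m : ℝ) * α)‖ ≤ B := by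
    intro x hx
    refine (h X q hq (hK.trans hKX) x hx α).trans ?_
    apply mul_le_mul_of_nonneg_left _ (by positivity)
    apply add_le_add
    · apply div_le_div_of_nonneg_left (by positivity) (by positivity)
      apply pow_le_pow_left₀ hlK.le
      exact Real.log_le_log (by linarith) (by exact_mod_cast hKX)
    · exact tl_mono q (ct_mono hKX) le_rfl
  have hdl : dl U X q K = 2 * (1 + Real.log X) * B := rfl
  rw [hdl]
  rcases hg with rfl | rfl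
  · have h1 := hB X le_rfl
    have h2 : ∑ m ∈ Icc 1 X, (if q ∣ m then ((g1 m : ℝ) : ℂ) else 0) * ee ((m : ℝ) * α) =
        ∑ m ∈ Icc 1 X, (if q ∣ m then ((muR m : ℝ) : ℂ) else 0) * ee ((m : ℝ) * α) := rfl
    rw [h2]
    refine h1.trans ?_
    nlinarith
  · have h1 := abel_log (fun m => (if q ∣ m then ((muR m : ℝ) : ℂ) else 0) * ee ((m : ℝ) * α)) X B hB
      X le_rfl
    have h2 : ∑ m ∈ Icc 1 X, (if q ∣ m then ((g2 m : ℝ) : ℂ) else 0) * ee ((m : ℝ) * α) =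
        (∑ m ∈ Icc 1 X, (if q ∣ m then ((muR m : ℝ) : ℂ) else 0) * ee ((m : ℝ) * α) * (Real.log m : ℂ) -
        (∑ m ∈ Icc 1 X, (if q ∣ m then ((muR m : ℝ) : ℂ) else 0) * ee ((m : ℝ) * α)) * (Real.log X : ℂ)) +
        (∑ m ∈ Icc 1 X, (if q ∣ m then ((muR m : ℝ) : ℂ) else 0) * ee ((m : ℝ) * α)) * (Real.log X : ℂ) := by
      rw [sub_add_cancel]
      apply sum_congr rfl
      intro m _
      split_ifs
      · unfold g2 muR
        push_cast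
        ring
      · simp
    rw [h2]
    refine (norm_add_le _ _).trans ?_
    have h3 : ‖(∑ m ∈ Icc 1 X, (if q ∣ m then ((muR m : ℝ) : ℂ) else 0) * ee ((m : ℝ) * α)) *
        (Real.log X : ℂ)‖ ≤ B * Real.log X := by
      rw [norm_mul, Complex.norm_real, Real.norm_of_nonneg hlX.le]
      exact mul_le_mul_of_nonneg_right (hB X le_rfl) hlX.le
    nlinarith

/-- the twisted sum over the progression `n ≡ N (mod q)` -/
noncomputable def Tq (g : ℕ → ℝ) (q N : ℕ) : ℝ :=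
  ∑ n ∈ (Ico 1 N).filter (fun n => n ≡ N [MOD q]), ArithmeticFunction.vonMangoldt n * g (N - n)

lemma Tq_eq (g : ℕ → ℝ) (q N : ℕ) : ((Tq g q N : ℝ) : ℂ) =
    ∑ n ∈ Ico 1 N, ((ArithmeticFunction.vonMangoldt n : ℝ) : ℂ) *
      (fun m => if q ∣ m then (g m : ℂ) else 0) (N - n) := by
  unfold Tq
  rw [sum_filter]
  push_cast
  apply sum_congr rfl
  intro n hn
  rw [mem_Ico] at hn
  have h1 : n ≡ N [MOD q] ↔ q ∣ N - n := Nat.modEq_iff_dvd' hn.2.le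
  by_cases h : q ∣ N - n
  · rw [if_pos (h1.2 h), if_pos h]
    push_cast
    ring
  · rw [if_neg (fun hh => h (h1.1 hh)), if_neg h]
    simp

lemma lam_sq (X : ℕ) : ∑ n ∈ Icc 1 X, ‖((ArithmeticFunction.vonMangoldt n : ℝ) : ℂ)‖ ^ 2 ≤
    X * (1 + Real.log X) ^ 2 := by
  have h1 : ∀ n ∈ Icc 1 X, ‖((ArithmeticFunction.vonMangoldt n : ℝ) : ℂ)‖ ^ 2 ≤ (1 + Real.log X) ^ 2 := by
    intro n hn
    rw [mem_Icc] at hn
    rw [Complex.norm_real, Real.norm_of_nonneg ArithmeticFunction.vonMangoldt_nonneg]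
    have h2 : ArithmeticFunction.vonMangoldt n ≤ Real.log n := ArithmeticFunction.vonMangoldt_le_log
    have hn0 : (0 : ℝ) < n := by exact_mod_cast hn.1
    have h3 := Real.log_le_log hn0 (show (n : ℝ) ≤ X by exact_mod_cast hn.2)
    apply pow_le_pow_left₀ ArithmeticFunction.vonMangoldt_nonneg
    linarith
  refine (sum_le_sum h1).trans ?_
  rw [sum_const, Nat.card_Icc, nsmul_eq_mul]
  simp

/-- the mean over `N` for one modulus -/
theorem mean_T (U : ℕ) : ∃ Y0 : ℕ, 4 ≤ Y0 ∧ ∀ X q K : ℕ, 1 ≤ q → Y0 ≤ K → K ≤ X / q → ∀ g : ℕ → ℝ,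
    (g = g1 ∨ g = g2) → ∑ N ∈ Icc 1 X, |Tq g q N| ≤ dl U X q K * (X * (1 + Real.log X)) := by
  obtain ⟨Y0, hY0, h⟩ := g_bound U
  refine ⟨Y0, hY0, fun X q K hq hK hKX g hg => ?_⟩
  have hK4 : 4 ≤ K := hY0.trans hK
  have hX4 : 4 ≤ X := (hK4.trans hKX).trans (Nat.div_le_self _ _)
  have hXr : (4 : ℝ) ≤ X := by exact_mod_cast hX4
  have hlX : 0 < Real.log X := Real.log_pos (by linarith)
  have hdl := dl_nonneg U X q K (by omega) (by omega)
  have h1 := mean_abs X (fun m => if q ∣ m then (g m : ℂ) else 0)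
    (fun n => ((ArithmeticFunction.vonMangoldt n : ℝ) : ℂ)) (dl U X q K) hdl
    (fun α => h X q K hq hK hKX g hg α)
  have h2 : ∑ N ∈ Icc 1 X, |Tq g q N| = ∑ N ∈ Icc 1 X, ‖∑ n ∈ Ico 1 N,
      ((ArithmeticFunction.vonMangoldt n : ℝ) : ℂ) * (if q ∣ N - n then (g (N - n) : ℂ) else 0)‖ := by
    apply sum_congr rfl
    intro N _
    have h3 := Tq_eq g q N
    rw [← Real.norm_eq_abs, ← Complex.norm_real, h3]
  rw [h2]
  refine h1.trans ?_
  apply mul_le_mul_of_nonneg_left _ hdl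
  have h3 := lam_sq X
  calc Real.sqrt (X * ∑ n ∈ Icc 1 X, ‖((ArithmeticFunction.vonMangoldt n : ℝ) : ℂ)‖ ^ 2) ≤
      Real.sqrt ((X * (1 + Real.log X)) ^ 2) := by
        apply Real.sqrt_le_sqrt
        calc (X : ℝ) * _ ≤ X * (X * (1 + Real.log X) ^ 2) :=
              mul_le_mul_of_nonneg_left h3 (by positivity)
          _ = _ := by ring
    _ = _ := Real.sqrt_sq (by positivity)

/-- the moduli with `K ≤ X / q` -/
def Qs (X K : ℕ) : Finset ℕ := (Icc 1 X).filter (fun q => K ≤ X / q)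

theorem sum_dl (U X K T : ℕ) (hX : 4 ≤ X) (hK : 4 ≤ K) (hT : 1 ≤ T) (hTK : T ^ 3 ≤ ct K) :
    ∑ q ∈ Qs X K, dl U X q K ≤ 8 * (1 + Real.log X) ^ 3 * X * (2 ^ U / Real.log K ^ U + 1 / T) := by
  have hXr : (4 : ℝ) ≤ X := by exact_mod_cast hX
  have hKr : (4 : ℝ) ≤ K := by exact_mod_cast hK
  have hTr : (1 : ℝ) ≤ T := by exact_mod_cast hT
  have hlX : 0 < Real.log X := Real.log_pos (by linarith)
  have hlK : 0 < Real.log K := Real.log_pos (by linarith)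
  set ℓ := 1 + Real.log X with hℓ
  have hℓ1 : 1 ≤ ℓ := by linarith
  have h1 : ∑ q ∈ Qs X K, dl U X q K ≤ ∑ q ∈ Icc 1 X, dl U X q K := by
    apply sum_le_sum_of_subset_of_nonneg (filter_subset _ _)
    intro q _ _
    exact dl_nonneg U X q K (by omega) (by omega)
  refine h1.trans ?_
  have h2 : ∑ q ∈ Icc 1 X, dl U X q K =
      2 * ℓ * X * (2 ^ U * ℓ / Real.log K ^ U * ∑ q ∈ Icc 1 X, 1 / (q : ℝ) +
        ∑ q ∈ Icc 1 X, 1 / (q : ℝ) * tl q (ct K) X) := by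
    rw [mul_sum, ← sum_add_distrib, mul_sum]
    apply sum_congr rfl
    intro q _
    unfold dl
    ring
  rw [h2]
  have h3 := harm_le X
  have h4 := (sum_tl (ct K) X).trans (mul_le_mul_of_nonneg_left (rad_tail T (ct K) X hT hTK)
    (by positivity))
  calc _ ≤ 2 * ℓ * X * (2 ^ U * ℓ / Real.log K ^ U * ℓ + ℓ * (4 / T)) := by
        apply mul_le_mul_of_nonneg_left _ (by positivity)
        apply add_le_add _ h4
        exact mul_le_mul_of_nonneg_left h3 (by positivity)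
    _ = 2 * X * (ℓ ^ 3 * (2 ^ U / Real.log K ^ U)) + 8 * X * (ℓ ^ 2 * (1 / T)) := by ring
    _ ≤ 8 * X * (ℓ ^ 3 * (2 ^ U / Real.log K ^ U)) + 8 * X * (ℓ ^ 3 * (1 / T)) := by
        have e1 : ℓ ^ 2 ≤ ℓ ^ 3 := pow_le_pow_right₀ hℓ1 (by norm_num)
        have e2 : 0 ≤ X * (ℓ ^ 3 * (2 ^ U / Real.log K ^ U)) := by positivity
        have e3 : X * (ℓ ^ 2 * (1 / (T : ℝ))) ≤ X * (ℓ ^ 3 * (1 / T)) := by gcongr
        linarith
    _ = _ := by ring

/-- the discrepancy over the moduli with `K ≤ X / q` -/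
noncomputable def DD (g : ℕ → ℝ) (X K N : ℕ) : ℝ :=
  ∑ q ∈ Qs X K, |Tq g q N - 1 / (Nat.totient q : ℝ) * Tq g 1 N|

theorem sum_DD (U : ℕ) : ∃ Y0 : ℕ, 4 ≤ Y0 ∧ ∀ X K T : ℕ, Y0 ≤ K → K ≤ X → 1 ≤ T → T ^ 3 ≤ ct K →
    ∀ g : ℕ → ℝ, (g = g1 ∨ g = g2) → ∑ N ∈ Icc 1 X, DD g X K N ≤
      16 * (1 + Real.log X) ^ 8 * X ^ 2 * (2 ^ U / Real.log K ^ U + 1 / T) := by
  obtain ⟨Y0, hY0, h⟩ := mean_T U
  refine ⟨Y0, hY0, fun X K T hK hKX hT hTK g hg => ?_⟩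
  have hK4 : 4 ≤ K := hY0.trans hK
  have hX4 : 4 ≤ X := hK4.trans hKX
  have hXr : (4 : ℝ) ≤ X := by exact_mod_cast hX4
  have hKr : (4 : ℝ) ≤ K := by exact_mod_cast hK4
  have hTr : (1 : ℝ) ≤ T := by exact_mod_cast hT
  have hlX : 0 < Real.log X := Real.log_pos (by linarith)
  have hlK : 0 < Real.log K := Real.log_pos (by linarith)
  set ℓ := 1 + Real.log X with hℓ
  have hℓ1 : 1 ≤ ℓ := by linarith
  set Z := 2 ^ U / Real.log K ^ U + 1 / (T : ℝ) with hZ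
  have hZ0 : 0 ≤ Z := by positivity
  have hQ : ∑ q ∈ Qs X K, ∑ N ∈ Icc 1 X, |Tq g q N| ≤ 8 * ℓ ^ 4 * X ^ 2 * Z := by
    have h1 : ∀ q ∈ Qs X K, ∑ N ∈ Icc 1 X, |Tq g q N| ≤ dl U X q K * (X * ℓ) := by
      intro q hq
      rw [Qs, mem_filter, mem_Icc] at hq
      exact h X q K hq.1.1 hK hq.2 g hg
    refine (sum_le_sum h1).trans ?_
    rw [← sum_mul]
    calc _ ≤ (8 * ℓ ^ 3 * X * Z) * (X * ℓ) :=
          mul_le_mul_of_nonneg_right (sum_dl U X K T hX4 hK4 hT hTK) (by positivity)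
      _ = _ := by ring
  have h1mem : 1 ∈ Qs X K := by
    rw [Qs, mem_filter, mem_Icc, Nat.div_one]
    exact ⟨⟨le_rfl, by omega⟩, hKX⟩
  have h1sum : ∑ N ∈ Icc 1 X, |Tq g 1 N| ≤ 8 * ℓ ^ 4 * X ^ 2 * Z := by
    refine le_trans ?_ hQ
    exact single_le_sum (f := fun q => ∑ N ∈ Icc 1 X, |Tq g q N|)
      (fun q _ => sum_nonneg fun _ _ => abs_nonneg _) h1mem
  have hphi : ∑ q ∈ Qs X K, 1 / (Nat.totient q : ℝ) ≤ ℓ ^ 4 := by
    obtain hk := Pool.Agent.H398R2.BV.sum_card_pow_div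
    have e1 : ∑ q ∈ Qs X K, 1 / (Nat.totient q : ℝ) ≤ ∑ q ∈ Icc 1 X, 1 / (Nat.totient q : ℝ) :=
      sum_le_sum_of_subset_of_nonneg (filter_subset _ _) (fun _ _ _ => by positivity)
    refine e1.trans ?_
    have e2 : ∀ q ∈ Icc 1 X, 1 / (Nat.totient q : ℝ) ≤ (q.divisors.card : ℝ) ^ 1 / q := by
      intro q hq
      rw [mem_Icc] at hq
      refine (Pool.Agent.H398R2.BV.one_div_totient_le q hq.1).trans ?_
      have hq0 : (0 : ℝ) < q := by exact_mod_cast hq.1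
      apply div_le_div_of_nonneg_right _ hq0.le
      rw [pow_one]
      exact_mod_cast Pool.Agent.H398R2.BV.two_pow_omega_le q (by omega)
    refine (sum_le_sum e2).trans ?_
    have e3 := hk 1 X
    refine e3.trans ?_
    rw [pow_one]
    exact pow_le_pow_right₀ hℓ1 (by norm_num)
  have hDD : ∑ N ∈ Icc 1 X, DD g X K N ≤ ∑ q ∈ Qs X K, ∑ N ∈ Icc 1 X, |Tq g q N| +
      (∑ q ∈ Qs X K, 1 / (Nat.totient q : ℝ)) * ∑ N ∈ Icc 1 X, |Tq g 1 N| := by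
    unfold DD
    rw [sum_comm, sum_mul, ← sum_add_distrib]
    apply sum_le_sum
    intro q _
    rw [mul_sum, ← sum_add_distrib]
    apply sum_le_sum
    intro N _
    refine (abs_sub _ _).trans ?_
    rw [abs_mul, abs_of_nonneg (show 0 ≤ 1 / (Nat.totient q : ℝ) by positivity)]
  refine hDD.trans ?_
  have h0 : 0 ≤ ∑ N ∈ Icc 1 X, |Tq g 1 N| := sum_nonneg fun _ _ => abs_nonneg _
  calc _ ≤ 8 * ℓ ^ 4 * X ^ 2 * Z + ℓ ^ 4 * (8 * ℓ ^ 4 * X ^ 2 * Z) := by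
        apply add_le_add hQ
        exact mul_le_mul hphi h1sum h0 (by positivity)
    _ ≤ 8 * ℓ ^ 8 * X ^ 2 * Z + 8 * ℓ ^ 8 * X ^ 2 * Z := by
        have e1 : ℓ ^ 4 ≤ ℓ ^ 8 := pow_le_pow_right₀ hℓ1 (by norm_num)
        have e2 : 8 * ℓ ^ 4 * X ^ 2 * Z ≤ 8 * ℓ ^ 8 * X ^ 2 * Z := by gcongr
        have e3 : ℓ ^ 4 * (8 * ℓ ^ 4 * X ^ 2 * Z) = 8 * ℓ ^ 8 * X ^ 2 * Z := by ring
        linarith
    _ = _ := by ring

end Pool.Agent.R311.DEH
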