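import Mathlib
import Pool.Agent.R311.DEH.A5

/-! Almost all `N`: the choice of the parameters. -/

set_option autoImplicit false

namespace Pool.Agent.R311.DEH
open Finset Filter Topology

lemma ev_pow_exp (c M : ℝ) (hc : 0 < c) (j : ℕ) :
    ∀ᶠ ℓ : ℝ in atTop, M * (1 + ℓ) ^ j ≤ Real.exp ((ℓ / 2) ^ c) := by
  -- y = (ℓ/2)^c
  have h1 : Tendsto (fun ℓ : ℝ => (ℓ / 2) ^ c) atTop atTop :=
    (tendsto_rpow_atTop hc).comp (tendsto_id.atTop_div_const (by norm_num))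
  have h2 := (isLittleO_rpow_exp_pos_mul_atTop ((j : ℝ) / c) (show (0 : ℝ) < 1 by norm_num)).bound
    (show (0 : ℝ) < 1 / ((|M| + 1) * 4 ^ j) by positivity)
  have h3 := h1.eventually h2
  filter_upwards [h3, eventually_ge_atTop (2 : ℝ)] with ℓ hℓ h2ℓ
  have hy0 : 0 < (ℓ / 2) ^ c := Real.rpow_pos_of_pos (by linarith) c
  rw [Real.norm_of_nonneg (by positivity), Real.norm_of_nonneg (by positivity), one_mul] at hℓ
  have h4 : ((ℓ / 2) ^ c) ^ ((j : ℝ) / c) = (ℓ / 2) ^ j := by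
    rw [← Real.rpow_mul (by linarith), mul_div_cancel₀ _ hc.ne', Real.rpow_natCast]
  rw [h4] at hℓ
  have h5 : (1 + ℓ) ^ j ≤ 4 ^ j * (ℓ / 2) ^ j := by
    rw [← mul_pow]
    apply pow_le_pow_left₀ (by linarith)
    linarith
  have h6 : M * (1 + ℓ) ^ j ≤ (|M| + 1) * (4 ^ j * (ℓ / 2) ^ j) := by
    have h7 : M * (1 + ℓ) ^ j ≤ (|M| + 1) * (1 + ℓ) ^ j := by
      apply mul_le_mul_of_nonneg_right _ (by positivity)
      have := le_abs_self M
      linarith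
    exact h7.trans (mul_le_mul_of_nonneg_left h5 (by positivity))
  refine h6.trans ?_
  calc (|M| + 1) * (4 ^ j * (ℓ / 2) ^ j) ≤
      (|M| + 1) * (4 ^ j * (1 / ((|M| + 1) * 4 ^ j) * Real.exp ((ℓ / 2) ^ c))) := by
        gcongr
    _ = _ := by field_simp

/-- the logarithm of the size of the complementary factor -/
noncomputable def yy (c : ℝ) (X : ℕ) : ℝ := (Real.log X / 2) ^ c

/-- the lower bound for `X / q` -/
noncomputable def KK' (c : ℝ) (X : ℕ) : ℕ := ⌊Real.exp (yy c X)⌋₊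

lemma tlog : Tendsto (fun X : ℕ => Real.log X) atTop atTop :=
  Real.tendsto_log_atTop.comp tendsto_natCast_atTop_atTop

lemma K_large (c : ℝ) (hc : 0 < c) (Y0 : ℕ) : ∃ X0 : ℕ, ∀ X : ℕ, X0 ≤ X → Y0 ≤ KK' c X := by
  have h := tlog.eventually (ev_pow_exp c (Y0 + 1) hc 0)
  obtain ⟨X0, hX0⟩ := eventually_atTop.1 h
  refine ⟨X0, fun X hX => ?_⟩
  have h2 := hX0 X hX
  rw [pow_zero, mul_one] at h2
  apply Nat.le_floor
  unfold yy
  linarith

lemma K_le (c : ℝ) (hc : 0 < c) (hc1 : c ≤ 1) : ∃ X0 : ℕ, ∀ X : ℕ, X0 ≤ X → KK' c X ≤ X := by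
  obtain ⟨X0, hX0⟩ := eventually_atTop.1 (tlog.eventually_ge_atTop 2)
  refine ⟨max X0 1, fun X hX => ?_⟩
  have h2 := hX0 X (le_trans (le_max_left _ _) hX)
  have hX1 : 1 ≤ X := le_trans (le_max_right _ _) hX
  have hXp : (0 : ℝ) < X := by exact_mod_cast hX1
  have h3 : yy c X ≤ Real.log X := by
    unfold yy
    calc (Real.log X / 2) ^ c ≤ (Real.log X / 2) ^ (1 : ℝ) :=
          Real.rpow_le_rpow_of_exponent_le (by linarith) hc1
      _ = Real.log X / 2 := Real.rpow_one _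
      _ ≤ _ := by linarith
  have h4 : (KK' c X : ℝ) ≤ X := by
    refine (Nat.floor_le (Real.exp_pos _).le).trans ?_
    rw [← Real.exp_log hXp]
    apply Real.exp_le_exp.2
    exact h3
  exact_mod_cast h4

lemma log_K (c : ℝ) (hc : 0 < c) : ∃ X0 : ℕ, ∀ X : ℕ, X0 ≤ X →
    yy c X / 2 ≤ Real.log (KK' c X) := by
  have c3 : ∀ᶠ X : ℕ in atTop, 2 ≤ yy c X :=
    (((tendsto_rpow_atTop hc).comp (tendsto_id.atTop_div_const (show (0 : ℝ) < 2 by norm_num))).comp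
      tlog).eventually_ge_atTop 2
  obtain ⟨X0, hX0⟩ := eventually_atTop.1 c3
  obtain ⟨X1, hX1⟩ := K_large c hc 4
  refine ⟨max X0 X1, fun X hX => ?_⟩
  have h3 := hX0 X (le_trans (le_max_left _ _) hX)
  have h4 := hX1 X (le_trans (le_max_right _ _) hX)
  have hKr : (4 : ℝ) ≤ KK' c X := by exact_mod_cast h4
  have hKge : Real.exp (yy c X) < KK' c X + 1 := Nat.lt_floor_add_one _
  rw [Real.le_log_iff_exp_le (by linarith)]
  have e1 : Real.exp (yy c X) = Real.exp (yy c X / 2) * Real.exp (yy c X / 2) := by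
    rw [← Real.exp_add]; congr 1; ring
  have e2 : 2 ≤ Real.exp (yy c X / 2) := by
    have := Real.add_one_le_exp (yy c X / 2)
    linarith
  have e3 : 2 * Real.exp (yy c X / 2) ≤ Real.exp (yy c X) := by
    rw [e1]; exact mul_le_mul_of_nonneg_right e2 (Real.exp_pos _).le
  linarith

/-- the cut parameter -/
lemma T_ex (c : ℝ) (hc : 0 < c) (E : ℕ) : ∃ X0 : ℕ, ∀ X : ℕ, X0 ≤ X → ∃ T : ℕ, 1 ≤ T ∧
    T ^ 3 ≤ ct (KK' c X) ∧ (1 + Real.log X) ^ E ≤ T := by
  have h := tlog.eventually (ev_pow_exp c (2 ^ 13) hc (12 * E))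
  obtain ⟨X0, hX0⟩ := eventually_atTop.1 h
  refine ⟨max X0 1, fun X hX => ?_⟩
  have h1 := hX0 X (le_trans (le_max_left _ _) hX)
  have hX1 : 1 ≤ X := le_trans (le_max_right _ _) hX
  have hL0 : 0 ≤ Real.log X := Real.log_nonneg (by exact_mod_cast hX1)
  set ℓ := 1 + Real.log X with hℓ
  have hℓ1 : 1 ≤ ℓ := by linarith
  have h8 : 1 ≤ ℓ ^ E := one_le_pow₀ hℓ1
  set T := ⌈ℓ ^ E⌉₊ with hT
  have hTge : ℓ ^ E ≤ T := Nat.le_ceil _
  have hTle : (T : ℝ) ≤ 2 * ℓ ^ E := by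
    have h7 := (Nat.ceil_lt_add_one (show 0 ≤ ℓ ^ E by positivity)).le
    linarith
  have hT1 : 1 ≤ T := by exact_mod_cast h8.trans hTge
  refine ⟨T, hT1, ?_, hTge⟩
  have hT12 : T ^ 12 ≤ KK' c X := by
    have h7 : (T : ℝ) ^ 12 ≤ 2 ^ 12 * ℓ ^ (12 * E) := by
      calc (T : ℝ) ^ 12 ≤ (2 * ℓ ^ E) ^ 12 := pow_le_pow_left₀ (by positivity) hTle _
        _ = _ := by rw [mul_pow, ← pow_mul, mul_comm E 12]
    apply Nat.le_floor
    push_cast
    refine h7.trans (le_trans ?_ h1)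
    apply mul_le_mul_of_nonneg_right _ (by positivity)
    norm_num
  unfold ct
  rw [Nat.le_sqrt, Nat.le_sqrt]
  calc T ^ 3 * T ^ 3 * (T ^ 3 * T ^ 3) = T ^ 12 := by ring
    _ ≤ KK' c X := hT12

/-- the saving from the exponential sums -/
lemma U_ex (c : ℝ) (hc : 0 < c) (E : ℕ) : ∃ U X0 : ℕ, ∀ X : ℕ, X0 ≤ X →
    2 ^ U / Real.log (KK' c X) ^ U ≤ 1 / (1 + Real.log X) ^ E := by
  obtain ⟨U, hU⟩ := exists_nat_ge (((E : ℝ) + 1) / c)
  obtain ⟨X1, h1⟩ := log_K c hc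
  obtain ⟨X2, h2⟩ := eventually_atTop.1 (tlog.eventually_ge_atTop
    (max 2 ((4 : ℝ) ^ U * 2 ^ (c * U) * 2 ^ E)))
  refine ⟨U, max X1 X2, fun X hX => ?_⟩
  have a1 := h1 X (le_trans (le_max_left _ _) hX)
  have a2 := h2 X (le_trans (le_max_right _ _) hX)
  set L := Real.log X with hL
  have hL2 : 2 ≤ L := (le_max_left _ _).trans a2
  have hLb : (4 : ℝ) ^ U * 2 ^ (c * U) * 2 ^ E ≤ L := (le_max_right _ _).trans a2
  have hy0 : 0 < yy c X := Real.rpow_pos_of_pos (by linarith) c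
  have hlK : 0 < Real.log (KK' c X) := by linarith
  rw [div_le_div_iff₀ (by positivity) (by positivity), one_mul]
  -- 2^U (1+L)^E ≤ (log K)^U
  have b1 : (yy c X / 2) ^ U ≤ Real.log (KK' c X) ^ U := pow_le_pow_left₀ (by positivity) a1 _
  have b2 : (yy c X) ^ U * 2 ^ (c * U) = L ^ (c * U) := by
    have e1 : (yy c X) ^ U = (L / 2) ^ (c * U) := by
      unfold yy
      rw [← Real.rpow_natCast, ← Real.rpow_mul (by linarith)]
    rw [e1, ← Real.mul_rpow (by linarith) (by norm_num)]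
    congr 1
    ring
  have b3 : L ^ (E + 1) ≤ L ^ (c * U) := by
    rw [← Real.rpow_natCast L (E + 1)]
    apply Real.rpow_le_rpow_of_exponent_le (by linarith)
    rw [div_le_iff₀ hc] at hU
    push_cast
    linarith
  have b4 : (1 + L) ^ E ≤ 2 ^ E * L ^ E := by
    rw [← mul_pow]
    exact pow_le_pow_left₀ (by linarith) (by linarith) _
  have hc2 : (0 : ℝ) < 2 ^ (c * U) := Real.rpow_pos_of_pos (by norm_num) _
  have b5 : 2 ^ U * (1 + L) ^ E * (2 ^ U * 2 ^ (c * U)) ≤ (yy c X) ^ U * 2 ^ (c * U) := by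
    rw [b2]
    refine le_trans ?_ b3
    calc 2 ^ U * (1 + L) ^ E * (2 ^ U * 2 ^ (c * U)) ≤ 2 ^ U * (2 ^ E * L ^ E) * (2 ^ U * 2 ^ (c * U)) := by
          gcongr
      _ = (4 ^ U * 2 ^ (c * U) * 2 ^ E) * L ^ E := by
          have : (4 : ℝ) ^ U = 2 ^ U * 2 ^ U := by rw [← mul_pow]; norm_num
          rw [this]; ring
      _ ≤ L * L ^ E := mul_le_mul_of_nonneg_right hLb (by positivity)
      _ = _ := by rw [pow_succ]; ring
  have b6 : 2 ^ U * (1 + L) ^ E * 2 ^ U ≤ (yy c X) ^ U := by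
    have : 2 ^ U * (1 + L) ^ E * 2 ^ U * 2 ^ (c * U) ≤ (yy c X) ^ U * 2 ^ (c * U) := by
      refine le_trans (le_of_eq ?_) b5
      ring
    exact le_of_mul_le_mul_right this hc2
  have b7 : 2 ^ U * (1 + L) ^ E ≤ (yy c X / 2) ^ U := by
    rw [div_pow, le_div_iff₀ (by positivity)]
    exact b6
  exact b7.trans b1

lemma low_N (B : ℕ) : ∃ X0 : ℕ, ∀ X : ℕ, X0 ≤ X →
    Real.exp (Real.log X / 2) ≤ X / (1 + Real.log X) ^ B := by
  have h := tlog.eventually (ev_pow_exp 1 1 one_pos B)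
  obtain ⟨X0, hX0⟩ := eventually_atTop.1 h
  refine ⟨max X0 1, fun X hX => ?_⟩
  have h1 := hX0 X (le_trans (le_max_left _ _) hX)
  have hX1 : 1 ≤ X := le_trans (le_max_right _ _) hX
  have hXp : (0 : ℝ) < X := by exact_mod_cast hX1
  have hL0 : 0 ≤ Real.log X := Real.log_nonneg (by exact_mod_cast hX1)
  rw [one_mul, Real.rpow_one] at h1
  rw [le_div_iff₀ (by positivity)]
  calc Real.exp (Real.log X / 2) * (1 + Real.log X) ^ B ≤
      Real.exp (Real.log X / 2) * Real.exp (Real.log X / 2) :=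
        mul_le_mul_of_nonneg_left h1 (Real.exp_pos _).le
    _ = Real.exp (Real.log X) := by rw [← Real.exp_add]; congr 1; ring
    _ = X := Real.exp_log hXp

/-- the moduli below the level -/
lemma level (c : ℝ) (hc : 0 < c) (X N : ℕ) (hX : 1 ≤ X) (hN : Real.exp (Real.log X / 2) ≤ N)
    (hNX : N ≤ X) (q : ℕ) (hq : 1 ≤ q) (hqN : (q : ℝ) ≤ N * Real.exp (-(Real.log N) ^ c)) :
    KK' c X ≤ X / q := by
  have hq0 : (0 : ℝ) < q := by exact_mod_cast hq
  have hN0 : (0 : ℝ) < N := (Real.exp_pos _).trans_le hN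
  have hL0 : 0 ≤ Real.log X := Real.log_nonneg (by exact_mod_cast hX)
  have hlogN : Real.log X / 2 ≤ Real.log N := by
    rw [Real.le_log_iff_exp_le hN0]; exact hN
  have hyN : yy c X ≤ (Real.log N) ^ c := Real.rpow_le_rpow (by linarith) hlogN hc.le
  have hKle : (KK' c X : ℝ) ≤ Real.exp (yy c X) := Nat.floor_le (Real.exp_pos _).le
  rw [Nat.le_div_iff_mul_le hq]
  have h8 : (KK' c X : ℝ) * q ≤ X := by
    calc (KK' c X : ℝ) * q ≤ Real.exp (yy c X) * (N * Real.exp (-(Real.log N) ^ c)) :=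
          mul_le_mul hKle hqN hq0.le (Real.exp_pos _).le
      _ = N * Real.exp (yy c X - (Real.log N) ^ c) := by
          rw [sub_eq_add_neg, Real.exp_add]; ring
      _ ≤ N * 1 := by
          apply mul_le_mul_of_nonneg_left _ hN0.le
          rw [Real.exp_le_one_iff]; linarith
      _ ≤ X := by rw [mul_one]; exact_mod_cast hNX
  exact_mod_cast h8

end Pool.Agent.R311.DEH
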