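import Mathlib
import Pool.Agent.R311.DEH.A6

/-! Almost all `N`. -/

set_option autoImplicit false

namespace Pool.Agent.R311.DEH
open Finset Filter Topology

/-- the discrepancy of the problem, for the moduli `q ≤ Q` coprime to `N` -/
noncomputable def D (g : ℕ → ℝ) (N : ℕ) (Q : ℝ) : ℝ :=
  ∑ q ∈ (Icc 1 ⌊Q⌋₊).filter (fun q => q.Coprime N),
    |Tq g q N - 1 / (Nat.totient q : ℝ) * Tq g 1 N|

lemma D_le (g : ℕ → ℝ) (X K N : ℕ) (Q : ℝ) (hK : 1 ≤ K)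
    (h : ∀ q : ℕ, 1 ≤ q → (q : ℝ) ≤ Q → K ≤ X / q) : D g N Q ≤ DD g X K N := by
  unfold D DD
  apply sum_le_sum_of_subset_of_nonneg
  · intro q hq
    rw [mem_filter, mem_Icc] at hq
    have hQ0 : 0 ≤ Q := by
      by_contra hcon
      push Not at hcon
      have := Nat.floor_of_nonpos hcon.le
      omega
    have h1 : (q : ℝ) ≤ Q := (Nat.le_floor_iff hQ0).1 hq.1.2
    have h2 := h q hq.1.1 h1
    rw [Qs, mem_filter, mem_Icc]
    refine ⟨⟨hq.1.1, ?_⟩, h2⟩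
    by_contra hcon
    push Not at hcon
    rw [Nat.div_eq_of_lt hcon] at h2
    omega
  · intro _ _ _; exact abs_nonneg _

lemma D_mono (g : ℕ → ℝ) (N : ℕ) {Q Q' : ℝ} (h : Q ≤ Q') : D g N Q ≤ D g N Q' := by
  unfold D
  apply sum_le_sum_of_subset_of_nonneg
  · intro q hq
    rw [mem_filter, mem_Icc] at hq ⊢
    exact ⟨⟨hq.1.1, hq.1.2.trans (Nat.floor_le_floor h)⟩, hq.2⟩
  · intro _ _ _; exact abs_nonneg _

/-- the counting step -/
lemma count_step (X : ℕ) (L ℓ : ℝ) (A B : ℕ) (F : ℕ → ℝ) (hF : ∀ N, 0 ≤ F N) (hX : 1 ≤ X)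
    (hL : 4 ≤ L) (hℓ : ℓ = 1 + L) (hsum : ∑ N ∈ Icc 1 X, F N ≤
      16 * ℓ ^ 8 * X ^ 2 * (2 / ℓ ^ (A + 2 * B + 14))) :
    (((Icc 1 X).filter (fun N : ℕ => (N : ℝ) < X / ℓ ^ (B + 2) ∨ X / ℓ ^ (A + B + 2) ≤ F N)).card : ℝ) ≤
      X / L ^ B := by
  have hXp : (0 : ℝ) < X := by exact_mod_cast hX
  have hL0 : 0 < L := by linarith
  have hℓ5 : 5 ≤ ℓ := by linarith
  have hℓ0 : 0 < ℓ := by linarith
  have hℓ1 : 1 ≤ ℓ := by linarith
  set S1 := (Icc 1 X).filter (fun N : ℕ => (N : ℝ) < X / ℓ ^ (B + 2)) with hS1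
  set S2 := (Icc 1 X).filter (fun N : ℕ => X / ℓ ^ (A + B + 2) ≤ F N) with hS2
  have hsub : (Icc 1 X).filter (fun N : ℕ => (N : ℝ) < X / ℓ ^ (B + 2) ∨ X / ℓ ^ (A + B + 2) ≤ F N) ⊆
      S1 ∪ S2 := by
    intro N hN
    rw [mem_filter] at hN
    rw [mem_union, hS1, hS2, mem_filter, mem_filter]
    tauto
  have hcard := (card_le_card hsub).trans (card_union_le _ _)
  have hP2 : X / ℓ ^ (B + 2) ≤ (1 / 2) * (X / L ^ B) := by
    have h7 : 2 * L ^ B ≤ ℓ ^ (B + 2) := by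
      have e1 : L ^ B ≤ ℓ ^ B := pow_le_pow_left₀ hL0.le (by linarith) _
      have e2 : 2 ≤ ℓ ^ 2 := by nlinarith
      calc 2 * L ^ B ≤ ℓ ^ 2 * ℓ ^ B := mul_le_mul e2 e1 (by positivity) (by positivity)
        _ = _ := by rw [← pow_add]; congr 1; ring
    calc X / ℓ ^ (B + 2) ≤ X / (2 * L ^ B) :=
          div_le_div_of_nonneg_left hXp.le (by positivity) h7
      _ = _ := by field_simp
  have hS1c : (S1.card : ℝ) ≤ (1 / 2) * (X / L ^ B) := by
    refine le_trans ?_ hP2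
    have h7 : S1 ⊆ Icc 1 ⌊X / ℓ ^ (B + 2)⌋₊ := by
      intro N hN
      rw [hS1, mem_filter, mem_Icc] at hN
      rw [mem_Icc]
      exact ⟨hN.1.1, Nat.le_floor hN.2.le⟩
    have h8 := card_le_card h7
    rw [Nat.card_Icc, Nat.add_sub_cancel] at h8
    calc (S1.card : ℝ) ≤ (⌊X / ℓ ^ (B + 2)⌋₊ : ℝ) := by exact_mod_cast h8
      _ ≤ _ := Nat.floor_le (by positivity)
  have hS2c : (S2.card : ℝ) ≤ (1 / 2) * (X / L ^ B) := by
    have h8 : (S2.card : ℝ) * (X / ℓ ^ (A + B + 2)) ≤ ∑ N ∈ Icc 1 X, F N := by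
      calc (S2.card : ℝ) * (X / ℓ ^ (A + B + 2)) = ∑ N ∈ S2, X / ℓ ^ (A + B + 2) := by
            rw [sum_const, nsmul_eq_mul]
        _ ≤ ∑ N ∈ S2, F N := sum_le_sum fun N hN => by
            rw [hS2, mem_filter] at hN; exact hN.2
        _ ≤ _ := sum_le_sum_of_subset_of_nonneg (filter_subset _ _) (fun N _ _ => hF N)
    have h9 := h8.trans hsum
    have hpos : 0 < (X : ℝ) / ℓ ^ (A + B + 2) := by positivity
    have h10 : (S2.card : ℝ) ≤ 16 * ℓ ^ 8 * X ^ 2 * (2 / ℓ ^ (A + 2 * B + 14)) / (X / ℓ ^ (A + B + 2)) := by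
      rw [le_div_iff₀ hpos]; exact h9
    refine h10.trans ?_
    have h11 : 16 * ℓ ^ 8 * (X : ℝ) ^ 2 * (2 / ℓ ^ (A + 2 * B + 14)) / (X / ℓ ^ (A + B + 2)) =
        32 * X / (ℓ ^ 2 * ℓ ^ (B + 2)) := by
      have e1 : ℓ ^ (A + 2 * B + 14) = ℓ ^ (A + B + 2) * ℓ ^ 8 * (ℓ ^ 2 * ℓ ^ (B + 2)) := by
        rw [← pow_add, ← pow_add, ← pow_add]; congr 1; ring
      rw [e1]
      field_simp
      ring
    rw [h11]
    have h12 : 32 * (X : ℝ) / (ℓ ^ 2 * ℓ ^ (B + 2)) ≤ 2 * (X / ℓ ^ (B + 2)) := by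
      have e2 : (16 : ℝ) ≤ ℓ ^ 2 := by nlinarith
      rw [div_le_iff₀ (by positivity)]
      have e3 : 2 * (X / ℓ ^ (B + 2)) * (ℓ ^ 2 * ℓ ^ (B + 2)) = 2 * X * ℓ ^ 2 := by field_simp
      rw [e3]
      nlinarith
    have h13 : 2 * (X / ℓ ^ (B + 2)) ≤ (1 / 2) * (X / L ^ B) := by
      have h7 : 4 * L ^ B ≤ ℓ ^ (B + 2) := by
        have e1 : L ^ B ≤ ℓ ^ B := pow_le_pow_left₀ hL0.le (by linarith) _
        have e2 : 4 ≤ ℓ ^ 2 := by nlinarith
        calc 4 * L ^ B ≤ ℓ ^ 2 * ℓ ^ B := mul_le_mul e2 e1 (by positivity) (by positivity)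
          _ = _ := by rw [← pow_add]; congr 1; ring
      calc 2 * (X / ℓ ^ (B + 2)) ≤ 2 * (X / (4 * L ^ B)) := by
            apply mul_le_mul_of_nonneg_left _ (by norm_num)
            exact div_le_div_of_nonneg_left hXp.le (by positivity) h7
        _ = _ := by field_simp; norm_num
    exact h12.trans h13
  have h14 : ((#((Icc 1 X).filter (fun N : ℕ => (N : ℝ) < X / ℓ ^ (B + 2) ∨
      X / ℓ ^ (A + B + 2) ≤ F N)) : ℕ) : ℝ) ≤ S1.card + S2.card := by exact_mod_cast hcard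
  linarith

theorem few_bad1 (c : ℝ) (hc : 0 < c) (hc1 : c ≤ 1) (A B : ℕ) : ∃ X0 : ℕ, ∀ X : ℕ, X0 ≤ X →
    ∀ g : ℕ → ℝ, (g = g1 ∨ g = g2) →
    (((Icc 1 X).filter (fun N : ℕ => (N : ℝ) / Real.log N ^ A <
      D g N (N * Real.exp (-(Real.log N) ^ c)))).card : ℝ) ≤ X / Real.log X ^ B := by
  obtain ⟨U, X1, hU⟩ := U_ex c hc (A + 2 * B + 14)
  obtain ⟨Y0, hY0, hsum⟩ := sum_DD U
  obtain ⟨X2, hK1⟩ := K_large c hc Y0
  obtain ⟨X3, hK2⟩ := K_le c hc hc1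
  obtain ⟨X4, hT⟩ := T_ex c hc (A + 2 * B + 14)
  obtain ⟨X5, hlow⟩ := low_N (B + 2)
  obtain ⟨X6, hlog⟩ := eventually_atTop.1 (tlog.eventually_ge_atTop 4)
  refine ⟨X1 + X2 + X3 + X4 + X5 + X6 + 1, fun X hX g hg => ?_⟩
  have a1 := hU X (by omega)
  have a2 := hK1 X (by omega)
  have a3 := hK2 X (by omega)
  obtain ⟨T, hT1, hTct, hTge⟩ := hT X (by omega)
  have a5 := hlow X (by omega)
  have a6 := hlog X (by omega)
  have hX1 : 1 ≤ X := by omega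
  have hXp : (0 : ℝ) < X := by exact_mod_cast hX1
  have a7 := hsum X (KK' c X) T a2 a3 hT1 hTct g hg
  have hℓ0 : 0 < 1 + Real.log X := by linarith
  have a8 : 2 ^ U / Real.log (KK' c X) ^ U + 1 / (T : ℝ) ≤
      2 / (1 + Real.log X) ^ (A + 2 * B + 14) := by
    have h1 : 1 / (T : ℝ) ≤ 1 / (1 + Real.log X) ^ (A + 2 * B + 14) :=
      one_div_le_one_div_of_le (by positivity) hTge
    calc _ ≤ 1 / (1 + Real.log X) ^ (A + 2 * B + 14) + 1 / (1 + Real.log X) ^ (A + 2 * B + 14) :=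
          add_le_add a1 h1
      _ = _ := by ring
  have a9 := count_step X (Real.log X) (1 + Real.log X) A B (DD g X (KK' c X))
    (fun N => sum_nonneg fun _ _ => abs_nonneg _) hX1 a6 rfl
    (a7.trans (mul_le_mul_of_nonneg_left a8 (by positivity)))
  refine le_trans ?_ a9
  have hsub : (Icc 1 X).filter (fun N : ℕ => (N : ℝ) / Real.log N ^ A <
      D g N (N * Real.exp (-(Real.log N) ^ c))) ⊆
      (Icc 1 X).filter (fun N : ℕ => (N : ℝ) < X / (1 + Real.log X) ^ (B + 2) ∨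
        X / (1 + Real.log X) ^ (A + B + 2) ≤ DD g X (KK' c X) N) := by
    intro N hN
    rw [mem_filter] at hN ⊢
    refine ⟨hN.1, ?_⟩
    rcases lt_or_ge (N : ℝ) (X / (1 + Real.log X) ^ (B + 2)) with h7 | h7
    · exact Or.inl h7
    · right
      have hNmem := mem_Icc.1 hN.1
      have hN0 : (0 : ℝ) < N := by exact_mod_cast hNmem.1
      have hNs : Real.exp (Real.log X / 2) ≤ N := a5.trans h7
      have h8 := D_le g X (KK' c X) N _ (by omega)
        (fun q hq hqN => level c hc X N hX1 hNs hNmem.2 q hq hqN)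
      refine le_trans ?_ (hN.2.le.trans h8)
      have hlogN : Real.log X / 2 ≤ Real.log N := by
        rw [Real.le_log_iff_exp_le hN0]; exact hNs
      have hlogN0 : 0 < Real.log N := by linarith
      have hlogN2 : Real.log N ≤ 1 + Real.log X := by
        have := Real.log_le_log hN0 (show (N : ℝ) ≤ X by exact_mod_cast hNmem.2)
        linarith
      calc X / (1 + Real.log X) ^ (A + B + 2) = (X / (1 + Real.log X) ^ (B + 2)) / (1 + Real.log X) ^ A := by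
            rw [div_div, ← pow_add]; congr 2; ring
        _ ≤ N / (1 + Real.log X) ^ A := div_le_div_of_nonneg_right h7 (by positivity)
        _ ≤ N / Real.log N ^ A := by
            apply div_le_div_of_nonneg_left hN0.le (by positivity)
            exact pow_le_pow_left₀ hlogN0.le hlogN2 _
  exact_mod_cast card_le_card hsub

end Pool.Agent.R311.DEH
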